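import Pool.Agent.Work.MP_ff8adc_an.Bounds

set_option autoImplicit false

open Set Complex MeasureTheory Filter Topology

namespace Pool.Agent.Work.MP_ff8adc_an

/-- (E1), small `t`: the alternating series. -/
lemma E1_small {t : ℝ} (ht : 0 < t) (ht2 : t ≤ 7 / 5) : 0 < (F (2 / 3) t).im := by
  set b : ℕ → ℝ := fun j => t ^ (2 * j + 1) / Real.Gamma ((2 / 3) * ((2 * j + 1 : ℕ) : ℝ) + 1)
    with hb
  have hGpos : ∀ j : ℕ, 0 < Real.Gamma ((2 / 3) * ((2 * j + 1 : ℕ) : ℝ) + 1) := fun j =>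
    Real.Gamma_pos_of_pos (by positivity)
  -- has sum
  have hsum0 := (summable_term (2/3) t le_rfl (by rw [abs_of_pos ht]; linarith)).hasSum
  have hsum1 : HasSum (fun k : ℕ => (((t : ℂ) * I) ^ k / (Real.Gamma ((2 / 3) * k + 1) : ℂ)).im)
      (F (2 / 3) t).im := Complex.hasSum_im hsum0
  have hinj : Function.Injective (fun j : ℕ => 2 * j + 1) := by
    intro i j h; simp only at h; omega
  have hpow : ∀ j : ℕ, ((t:ℂ) * I) ^ (2 * j + 1) = ((t ^ (2 * j + 1) * (-1) ^ j : ℝ) : ℂ) * I := by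
    intro j
    rw [mul_pow]
    have : I ^ (2 * j + 1) = (-1) ^ j * I := by
      rw [pow_succ, pow_mul, I_sq]
    rw [this]; push_cast; ring
  have hpow2 : ∀ j : ℕ, ((t:ℂ) * I) ^ (2 * j) = ((t ^ (2 * j) * (-1) ^ j : ℝ) : ℂ) := by
    intro j
    rw [mul_pow, pow_mul I, I_sq]; push_cast; ring
  have hsum2 : HasSum (fun j : ℕ => (-1) ^ j * b j) (F (2 / 3) t).im := by
    rw [← hinj.hasSum_iff] at hsum1
    · convert hsum1 using 1
      ext j
      simp only [Function.comp, hpow]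
      rw [mul_div_right_comm, ← Complex.ofReal_div, Complex.im_ofReal_mul, Complex.I_im, mul_one]
      rw [hb]
      ring
    · intro k hk
      have hk2 : k % 2 = 0 := by
        by_contra hcon
        apply hk
        exact ⟨k / 2, by simp only; omega⟩
      obtain ⟨j, rfl⟩ : ∃ j, k = 2 * j := ⟨k / 2, by omega⟩
      rw [hpow2, ← Complex.ofReal_div, Complex.ofReal_im]
  have hanti : Antitone b := by
    apply antitone_nat_of_succ_le
    intro j
    rw [hb]
    simp only
    have hx : (2 / 3 : ℝ) * ((2 * (j + 1) + 1 : ℕ) : ℝ) + 1 =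
        ((2 / 3) * ((2 * j + 1 : ℕ) : ℝ) + 1) + 4 / 3 := by push_cast; ring
    have ht2' : t ^ 2 ≤ 49 / 25 := by nlinarith
    have hkey : t ^ 2 * Real.Gamma ((2 / 3) * ((2 * j + 1 : ℕ) : ℝ) + 1) ≤
        Real.Gamma ((2 / 3) * ((2 * (j + 1) + 1 : ℕ) : ℝ) + 1) := by
      rw [hx]
      rcases Nat.eq_zero_or_pos j with h0 | h0
      · subst h0
        norm_num
        have h1 : Real.Gamma (5 / 3) ≤ 1 := gamma_le_one (by norm_num) (by norm_num)
        have h3 : 0 < Real.Gamma (5 / 3) := Real.Gamma_pos_of_pos (by norm_num)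
        nlinarith
      · set x : ℝ := (2 / 3) * ((2 * j + 1 : ℕ) : ℝ) + 1 with hxdef
        have hj : (1:ℝ) ≤ j := by exact_mod_cast h0
        have hx3 : 3 ≤ x := by rw [hxdef]; push_cast; linarith
        have h1 : Real.Gamma (x + 1) = x * Real.Gamma x := Real.Gamma_add_one (by linarith)
        have h2 : Real.Gamma (x + 1) ≤ Real.Gamma (x + 4 / 3) :=
          Real.Gamma_strictMonoOn_Ici.monotoneOn (by simp only [mem_Ici]; linarith)
            (by simp only [mem_Ici]; linarith) (by linarith)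
        have h3 : 0 < Real.Gamma x := Real.Gamma_pos_of_pos (by linarith)
        nlinarith
    rw [div_le_div_iff₀ (hGpos (j + 1)) (hGpos j)]
    have hpe : t ^ (2 * (j + 1) + 1) = t ^ (2 * j + 1) * t ^ 2 := by ring
    rw [hpe, mul_assoc]
    exact mul_le_mul_of_nonneg_left hkey (by positivity)
  have hfin := hanti.alternating_series_le_tendsto hsum2.tendsto_sum_nat 1
  refine lt_of_lt_of_le ?_ hfin
  rw [show 2 * 1 = 1 + 1 by norm_num, Finset.sum_range_succ, Finset.sum_range_succ]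
  simp only [Finset.range_zero, Finset.sum_empty, pow_zero, one_mul, pow_one, zero_add]
  rw [hb]
  have h1 : Real.Gamma (5 / 3) ≤ 1 := gamma_le_one (by norm_num) (by norm_num)
  have h3 : 0 < Real.Gamma (5 / 3) := Real.Gamma_pos_of_pos (by norm_num)
  norm_num
  have h4 : t ≤ t / Real.Gamma (5 / 3) := by
    rw [le_div_iff₀ h3]; nlinarith
  have ht2' : t ^ 2 < 2 := by nlinarith
  have h5 : t ^ 3 / 2 < t := by
    have : t ^ 3 = t * t ^ 2 := by ring
    rw [this]
    nlinarith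
  linarith

lemma exp_ge_sq {u : ℝ} (hu : 0 ≤ u) : (Real.exp 1 / 2) ^ 2 * u ^ 2 ≤ Real.exp u := by
  have h1 : Real.exp 1 * (u / 2) ≤ Real.exp (u / 2) := by
    have := Real.add_one_le_exp (u / 2 - 1)
    rw [sub_add_cancel] at this
    have h2 : Real.exp (u / 2 - 1) = Real.exp (u / 2) / Real.exp 1 := Real.exp_sub _ _
    rw [h2, le_div_iff₀ (Real.exp_pos 1)] at this
    linarith
  have h3 : Real.exp u = Real.exp (u / 2) ^ 2 := by
    rw [← Real.exp_nat_mul]; congr 1; push_cast; ring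
  rw [h3]
  have h4 : 0 ≤ Real.exp 1 * (u / 2) := by positivity
  nlinarith [Real.exp_pos (u / 2)]

/-- (E1), larger `t`. -/
lemma E1_large {t : ℝ} (ht : 7 / 5 ≤ t) (ht2 : t ≤ 11 / 2) : 0 < (F (2 / 3) t).im := by
  have pi_pos := Real.pi_pos
  have hpi := Real.pi_gt_d4
  have ht0 : 0 < t := by linarith
  have hlow := F_im_lower (a := 2 / 3) le_rfl (by norm_num) ht0 ht2
  -- constants
  have hG : Real.Gamma (3 * (2 / 3)) = 1 := by norm_num
  have hcos : |Real.cos (Real.pi * (2 / 3))| = 1 / 2 := by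
    rw [show Real.pi * (2 / 3) = Real.pi - Real.pi / 3 by ring, Real.cos_pi_sub,
      Real.cos_pi_div_three]
    rw [abs_neg, abs_of_pos] <;> norm_num
  rw [hG, hcos] at hlow
  -- exponential term
  set X : ℝ := Real.exp (Real.log t / (2 / 3)) with hX
  have hXpos : 0 < X := Real.exp_pos _
  have hX2 : X ^ 2 = t ^ 3 := by
    rw [hX, ← Real.exp_nat_mul]
    have : ((2:ℕ) : ℝ) * (Real.log t / (2 / 3)) = ((3:ℕ):ℝ) * Real.log t := by
      push_cast; ring
    rw [this, Real.exp_nat_mul, Real.exp_log ht0]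
  have hth : Real.pi / (2 * (2 / 3)) = Real.pi - Real.pi / 4 := by ring
  have hce : Real.cos (Real.pi / (2 * (2 / 3))) = -(√2 / 2) := by
    rw [hth, Real.cos_pi_sub, Real.cos_pi_div_four]
  have hse : Real.sin (Real.pi / (2 * (2 / 3))) = √2 / 2 := by
    rw [hth, Real.sin_pi_sub, Real.sin_pi_div_four]
  have him := expexp_im (2 / 3) t
  rw [hce, hse, ← hX] at him
  set u : ℝ := X * (√2 / 2) with hu
  have hu0 : 0 < u := by positivity
  have hu2 : u ^ 2 = t ^ 3 / 2 := by
    rw [hu, mul_pow, hX2, div_pow, Real.sq_sqrt (by norm_num)]; ring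
  have him' : (exp (exp (xi0 (2 / 3) t))).im = Real.exp (-u) * Real.sin u := by
    rw [him]; congr 2; rw [hu]; ring
  rw [him'] at hlow
  refine lt_of_lt_of_le ?_ hlow
  have hR : 1 / (2 * Real.pi * t ^ 3) * (1 + 1 / (1 / 2)) ≤ (4776 / 10000) / t ^ 3 := by
    have : 1 / (2 * Real.pi * t ^ 3) * (1 + 1 / (1 / 2)) = (3 / (2 * Real.pi)) / t ^ 3 := by
      field_simp; norm_num
    rw [this]
    apply div_le_div_of_nonneg_right _ (by positivity)
    rw [div_le_iff₀ (by positivity)]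
    linarith
  have ht3 : 0 < t ^ 3 := by positivity
  rcases le_or_gt u Real.pi with hle | hgt
  · have hs : 0 ≤ Real.exp (-u) * Real.sin u :=
      mul_nonneg (Real.exp_pos _).le (Real.sin_nonneg_of_nonneg_of_le_pi hu0.le hle)
    have h1 : (4776 / 10000) / t ^ 3 < (1 - 2 / 3) / t := by
      rw [div_lt_div_iff₀ ht3 ht0]
      have h6 : 49 / 25 ≤ t ^ 2 := by nlinarith
      have h7 : t ^ 3 = t * t ^ 2 := by ring
      rw [h7]
      nlinarith
    have h2 : 0 ≤ 1 / (2 / 3) * (Real.exp (-u) * Real.sin u) := by positivity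
    linarith
  · -- u > π
    have hu3 : Real.pi ^ 2 < u ^ 2 := by nlinarith
    have hpi2 : 9.8 < Real.pi ^ 2 := by nlinarith
    have ht3' : 19.6 < t ^ 3 := by linarith
    have ht27 : 2.69 < t := by
      by_contra hcon
      push Not at hcon
      have : t ^ 3 ≤ 2.69 ^ 3 := pow_le_pow_left₀ ht0.le hcon 3
      norm_num at this
      linarith
    have he := exp_ge_sq hu0.le
    have he1 := Real.exp_one_gt_d9
    have he2 : 7.38 ≤ Real.exp 1 ^ 2 := by nlinarith
    have he3 : 0.9225 * t ^ 3 ≤ Real.exp u := by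
      have : (Real.exp 1 / 2) ^ 2 * u ^ 2 = Real.exp 1 ^ 2 / 8 * t ^ 3 := by rw [hu2]; ring
      rw [this] at he
      nlinarith
    have hen : Real.exp (-u) ≤ 1.0841 / t ^ 3 := by
      rw [Real.exp_neg, ← one_div, div_le_div_iff₀ (Real.exp_pos u) ht3]
      nlinarith
    have hs := Real.neg_one_le_sin u
    have h1 : -(1.0841 / t ^ 3) ≤ Real.exp (-u) * Real.sin u := by
      have hp := Real.exp_pos (-u)
      nlinarith
    have h2 : (2.104:ℝ) / t ^ 3 < (1 - 2 / 3) / t := by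
      rw [div_lt_div_iff₀ ht3 ht0]
      have h6 : 7.2 ≤ t ^ 2 := by nlinarith
      have h7 : t ^ 3 = t * t ^ 2 := by ring
      rw [h7]
      nlinarith
    have h3 : 1 / (2 / 3) * (-(1.0841 / t ^ 3)) ≤ 1 / (2 / 3) * (Real.exp (-u) * Real.sin u) :=
      mul_le_mul_of_nonneg_left h1 (by norm_num)
    have h4 : 1 / (2 / 3) * (-((1.0841:ℝ) / t ^ 3)) - (4776 / 10000) / t ^ 3 ≥
        -(2.104 / t ^ 3) := by
      have : 1 / (2 / 3) * (-((1.0841:ℝ) / t ^ 3)) - (4776 / 10000) / t ^ 3 =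
        -(2.10375 / t ^ 3) := by field_simp; norm_num
      rw [this]
      have h5 : (2.10375:ℝ) / t ^ 3 ≤ 2.104 / t ^ 3 :=
        div_le_div_of_nonneg_right (by norm_num) ht3.le
      linarith
    linarith

theorem E1 {t : ℝ} (ht : 0 < t) (ht2 : t ≤ 11 / 2) : 0 < (F (2 / 3) t).im := by
  rcases le_total t (7 / 5) with h | h
  · exact E1_small ht h
  · exact E1_large h ht2

end Pool.Agent.Work.MP_ff8adc_an
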