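import Pool.Agent.Work.MP_ff8adc_an.Bounds

set_option autoImplicit false

open Set Complex MeasureTheory Filter Topology

namespace Pool.Agent.Work.MP_ff8adc_an

lemma log_T_lower : (33:ℝ) / 20 ≤ Real.log (21 / 4) := by
  rw [Real.le_log_iff_exp_le (by norm_num)]
  have h1 : Real.exp (33 / 20) ^ 20 ≤ (21 / 4 : ℝ) ^ 20 := by
    rw [← Real.exp_nat_mul]
    have e : ((20:ℕ):ℝ) * (33 / 20) = ((33:ℕ):ℝ) * 1 := by norm_num
    rw [e, Real.exp_nat_mul]
    calc Real.exp 1 ^ 33 ≤ (2.7182818286:ℝ) ^ 33 :=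
          pow_le_pow_left₀ (Real.exp_pos 1).le Real.exp_one_lt_d9.le 33
      _ ≤ (21 / 4 : ℝ) ^ 20 := by norm_num
  exact (pow_le_pow_iff_left₀ (Real.exp_pos _).le (by norm_num) (by norm_num)).mp h1

/-- geometry of the exponent for `T = 21/4`: `δ = 1/a - 1`. -/
lemma setup {a : ℝ} (ha0 : 0 < a) :
    Real.exp (Real.log (21 / 4) / a) = 21 / 4 * Real.exp ((1 / a - 1) * Real.log (21 / 4)) ∧
    Real.cos (Real.pi / (2 * a)) = -Real.sin (Real.pi / 2 * (1 / a - 1)) ∧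
    Real.sin (Real.pi / (2 * a)) = Real.cos (Real.pi / 2 * (1 / a - 1)) := by
  refine ⟨?_, ?_, ?_⟩
  · have h1 : Real.log (21 / 4) / a = Real.log (21 / 4) + (1 / a - 1) * Real.log (21 / 4) := by
      field_simp; ring
    rw [h1, Real.exp_add, Real.exp_log (by norm_num)]
  · have h1 : Real.pi / (2 * a) = Real.pi / 2 * (1 / a - 1) + Real.pi / 2 := by
      field_simp; ring
    rw [h1, Real.cos_add_pi_div_two]
  · have h1 : Real.pi / (2 * a) = Real.pi / 2 * (1 / a - 1) + Real.pi / 2 := by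
      field_simp; ring
    rw [h1, Real.sin_add_pi_div_two]

lemma X_lower {d : ℝ} (hd : 0 ≤ d) :
    1 + 33 / 20 * d ≤ Real.exp (d * Real.log (21 / 4)) := by
  have h1 := Real.add_one_le_exp (d * Real.log (21 / 4))
  have h2 := log_T_lower
  have h3 : d * (33 / 20) ≤ d * Real.log (21 / 4) := mul_le_mul_of_nonneg_left h2 hd
  linarith

lemma cos_lower {d : ℝ} : 1 - 12338 / 10000 * d ^ 2 ≤ Real.cos (Real.pi / 2 * d) := by
  have h1 := Real.one_sub_sq_div_two_le_cos (x := Real.pi / 2 * d)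
  have h2 : Real.pi ^ 2 ≤ 9.8704 := by
    have := Real.pi_lt_d4
    have := Real.pi_pos
    nlinarith
  have h3 : (Real.pi / 2 * d) ^ 2 / 2 = Real.pi ^ 2 / 8 * d ^ 2 := by ring
  rw [h3] at h1
  have h4 : Real.pi ^ 2 / 8 * d ^ 2 ≤ 12338 / 10000 * d ^ 2 :=
    mul_le_mul_of_nonneg_right (by linarith) (sq_nonneg d)
  linarith

lemma R_num {a : ℝ} (ha : 2 / 3 ≤ a) (ha1 : a < 1) :
    Real.Gamma (3 * a) / (2 * Real.pi * (21 / 4) ^ 3) * (1 + 1 / |Real.cos (Real.pi * a)|) ≤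
      67 / 10000 := by
  refine (R_bound ha ha1 (by norm_num)).trans ?_
  have := Real.pi_gt_d4
  rw [div_le_iff₀ (by positivity)]
  norm_num
  linarith

theorem E2 {a : ℝ} (ha : 2 / 3 ≤ a) (ham : a ≤ 17 / 20) : 0 < (F a (21 / 4)).im := by
  have pi_pos := Real.pi_pos
  have hpi1 := Real.pi_gt_d4
  have hpi2 := Real.pi_lt_d4
  have ha0 : 0 < a := by linarith
  have ha1 : a < 1 := by linarith
  have hlow := F_im_lower ha ha1 (t := 21 / 4) (by norm_num) (by norm_num)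
  obtain ⟨s1, s2, s3⟩ := setup ha0
  set d : ℝ := 1 / a - 1 with hd
  have hd1 : 3 / 17 ≤ d := by
    rw [hd, le_sub_iff_add_le, le_div_iff₀ ha0]; linarith
  have hd2 : d ≤ 1 / 2 := by
    rw [hd, sub_le_iff_le_add, div_le_iff₀ ha0]; linarith
  have hd0 : 0 ≤ d := by linarith
  have hX1 := X_lower hd0
  have hc1 := cos_lower (d := d)
  have him := expexp_im a (21 / 4)
  rw [s1, s2, s3] at him
  set Y : ℝ := Real.exp (d * Real.log (21 / 4)) with hY
  set y : ℝ := 21 / 4 * Y * Real.cos (Real.pi / 2 * d) with hy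
  have hYpos : 0 < Y := Real.exp_pos _
  -- lower bound 2π ≤ y
  have hc0 : 0 ≤ 1 - 12338 / 10000 * d ^ 2 := by nlinarith
  have hlo : 2 * Real.pi ≤ y := by
    have h1 : (1 + 33 / 20 * d) * (1 - 12338 / 10000 * d ^ 2) ≤ Y * Real.cos (Real.pi / 2 * d) :=
      mul_le_mul hX1 hc1 hc0 hYpos.le
    have h2 : 1.24 ≤ (1 + 33 / 20 * d) * (1 - 12338 / 10000 * d ^ 2) := by
      nlinarith [mul_nonneg (sub_nonneg.mpr hd1) (sub_nonneg.mpr hd2),
        mul_nonneg hd0 (mul_nonneg (sub_nonneg.mpr hd1) (sub_nonneg.mpr hd2))]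
    have h3 : y = 21 / 4 * (Y * Real.cos (Real.pi / 2 * d)) := by rw [hy]; ring
    rw [h3]
    linarith
  -- upper bound y ≤ 3π
  have hYup : Y ≤ 1 + 2.5828 * d := by
    have hconv := convexOn_exp.2 (mem_univ (0:ℝ)) (mem_univ (Real.log (21/4) / 2))
      (show 0 ≤ 1 - 2 * d by linarith) (show 0 ≤ 2 * d by linarith) (by ring)
    simp only [smul_eq_mul, mul_zero, zero_add, Real.exp_zero, mul_one] at hconv
    have e1 : 2 * d * (Real.log (21 / 4) / 2) = d * Real.log (21 / 4) := by ring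
    rw [e1, ← hY] at hconv
    have h2 : Real.exp (Real.log (21 / 4) / 2) ≤ 2.2914 := by
      have h3 : Real.exp (Real.log (21 / 4) / 2) ^ 2 = 21 / 4 := by
        rw [← Real.exp_nat_mul]
        have : ((2:ℕ):ℝ) * (Real.log (21 / 4) / 2) = Real.log (21 / 4) := by push_cast; ring
        rw [this, Real.exp_log (by norm_num)]
      have h4 : 0 < Real.exp (Real.log (21 / 4) / 2) := Real.exp_pos _
      by_contra hcon
      push Not at hcon
      nlinarith
    nlinarith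
  have hx1 : |Real.pi / 2 * d| ≤ 1 := by
    rw [abs_of_nonneg (by positivity)]
    nlinarith
  have hcb := Real.cos_bound hx1
  have hcup : Real.cos (Real.pi / 2 * d) ≤ 1 - 1.15 * d ^ 2 := by
    have h1 := (abs_le.mp hcb).2
    have h2 : |Real.pi / 2 * d| ^ 4 = (Real.pi ^ 2) ^ 2 / 16 * d ^ 4 := by
      rw [abs_of_nonneg (by positivity)]; ring
    have h3 : (Real.pi / 2 * d) ^ 2 / 2 = Real.pi ^ 2 / 8 * d ^ 2 := by ring
    rw [h2, h3] at h1
    have hp2 : 9.869 ≤ Real.pi ^ 2 := by nlinarith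
    have hp2' : Real.pi ^ 2 ≤ 9.8704 := by nlinarith
    have hp4 : (Real.pi ^ 2) ^ 2 ≤ 97.43 := by nlinarith
    have hd2' : d ^ 2 ≤ 1 / 4 := by nlinarith
    have hd4 : d ^ 4 ≤ d ^ 2 / 4 := by
      have : d ^ 4 = d ^ 2 * d ^ 2 := by ring
      rw [this]
      nlinarith [sq_nonneg d]
    have h4 : (Real.pi ^ 2) ^ 2 / 16 * d ^ 4 * (5 / 96) ≤ 97.43 / 16 * (d ^ 2 / 4) * (5 / 96) := by
      have hd40 : 0 ≤ d ^ 4 := by positivity
      have : (Real.pi ^ 2) ^ 2 / 16 * d ^ 4 ≤ 97.43 / 16 * (d ^ 2 / 4) :=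
        mul_le_mul (by linarith) hd4 hd40 (by norm_num)
      linarith
    have h5 : 9.869 / 8 * d ^ 2 ≤ Real.pi ^ 2 / 8 * d ^ 2 :=
      mul_le_mul_of_nonneg_right (by linarith) (sq_nonneg d)
    nlinarith [sq_nonneg d]
  have hcpos : 0 ≤ Real.cos (Real.pi / 2 * d) := by linarith
  have hup : y ≤ 3 * Real.pi := by
    have h1 : Y * Real.cos (Real.pi / 2 * d) ≤ (1 + 2.5828 * d) * (1 - 1.15 * d ^ 2) :=
      mul_le_mul hYup hcup hcpos (by linarith)
    have h2 : (1 + 2.5828 * d) * (1 - 1.15 * d ^ 2) ≤ 1.79 := by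
      nlinarith [sq_nonneg (d - 0.42), mul_nonneg hd0 (sq_nonneg (d - 0.42))]
    have h3 : y = 21 / 4 * (Y * Real.cos (Real.pi / 2 * d)) := by rw [hy]; ring
    rw [h3]
    linarith
  have hsin : 0 ≤ Real.sin y := by
    have h1 : Real.sin y = Real.sin (y - 2 * Real.pi) := by rw [Real.sin_sub_two_pi]
    rw [h1]
    apply Real.sin_nonneg_of_nonneg_of_le_pi <;> linarith
  have him0 : 0 ≤ (exp (exp (xi0 a (21 / 4)))).im := by
    rw [him]
    exact mul_nonneg (Real.exp_pos _).le hsin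
  have hR := R_num ha ha1
  have h5 : 0 ≤ 1 / a * (exp (exp (xi0 a (21 / 4)))).im := by positivity
  have h6 : (1 / 35 : ℝ) ≤ (1 - a) / (21 / 4) := by
    rw [le_div_iff₀ (by norm_num)]; linarith
  linarith

theorem E3 {a : ℝ} (ham : 17 / 20 ≤ a) (ha1 : a < 1) : 0 < (F a (21 / 4)).re := by
  have pi_pos := Real.pi_pos
  have hpi1 := Real.pi_gt_d4
  have hpi2 := Real.pi_lt_d4
  have ha : 2 / 3 ≤ a := by linarith
  have ha0 : 0 < a := by linarith
  have hlow := F_re_lower ha ha1 (t := 21 / 4) (by norm_num) (by norm_num)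
  obtain ⟨s1, s2, s3⟩ := setup ha0
  have hXup0 : Real.exp (Real.log (21 / 4) / a) ≤ 7.1 := by
    have h1 : Real.log (21 / 4) / a ≤ Real.log (21 / 4) * (20 / 17) := by
      rw [div_le_iff₀ ha0]
      have : 0 < Real.log (21 / 4) := by linarith [log_T_lower]
      nlinarith
    refine (Real.exp_le_exp.mpr h1).trans ?_
    have h2 : Real.exp (Real.log (21 / 4) * (20 / 17)) ^ 17 ≤ (7.1:ℝ) ^ 17 := by
      rw [← Real.exp_nat_mul]
      have e : ((17:ℕ):ℝ) * (Real.log (21 / 4) * (20 / 17)) = ((20:ℕ):ℝ) * Real.log (21 / 4) := by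
        push_cast; ring
      rw [e, Real.exp_nat_mul, Real.exp_log (by norm_num)]
      norm_num
    exact (pow_le_pow_iff_left₀ (Real.exp_pos _).le (by norm_num) (by norm_num)).mp h2
  set d : ℝ := 1 / a - 1 with hd
  have hd0 : 0 < d := by
    rw [hd, lt_sub_iff_add_lt, lt_div_iff₀ ha0]; linarith
  have hd2 : d ≤ 3 / 17 := by
    rw [hd, sub_le_iff_le_add, div_le_iff₀ ha0]; linarith
  have hX1 := X_lower hd0.le
  have hc1 := cos_lower (d := d)
  have hre := expexp_re a (21 / 4)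
  rw [s2, s3] at hre
  set X : ℝ := Real.exp (Real.log (21 / 4) / a) with hX
  have hXpos : 0 < X := Real.exp_pos _
  have hXlow : 21 / 4 * (1 + 33 / 20 * d) ≤ X := by
    rw [s1]; linarith
  set y : ℝ := X * Real.cos (Real.pi / 2 * d) with hy
  have hc0 : 0 ≤ 1 - 12338 / 10000 * d ^ 2 := by nlinarith
  have hcle : Real.cos (Real.pi / 2 * d) ≤ 1 := Real.cos_le_one _
  have hyup : y ≤ 7.1 := by
    rw [hy]; nlinarith
  have hylo : 21 / 4 ≤ y := by
    have h1 : 21 / 4 * (1 + 33 / 20 * d) * (1 - 12338 / 10000 * d ^ 2) ≤ y :=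
      mul_le_mul hXlow hc1 hc0 hXpos.le
    have h2 : 1 ≤ (1 + 33 / 20 * d) * (1 - 12338 / 10000 * d ^ 2) := by
      have h3 : (1 + 33 / 20 * d) * (1 - 12338 / 10000 * d ^ 2) - 1 =
        d * (33 / 20 - 12338 / 10000 * d - 33 / 20 * (12338 / 10000) * d ^ 2) := by ring
      have h4 : 0 ≤ 33 / 20 - 12338 / 10000 * d - 33 / 20 * (12338 / 10000) * d ^ 2 := by
        nlinarith
      nlinarith
    nlinarith
  have hcosy : 0.46 ≤ Real.cos y := by
    have h1 : Real.cos y = Real.cos (y - 2 * Real.pi) := by rw [Real.cos_sub_two_pi]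
    rw [h1]
    have h2 := Real.one_sub_sq_div_two_le_cos (x := y - 2 * Real.pi)
    have h3 : |y - 2 * Real.pi| ≤ 1.0333 := by
      rw [abs_le]; constructor <;> linarith
    have h4 : (y - 2 * Real.pi) ^ 2 ≤ 1.0333 ^ 2 := by
      rw [← sq_abs]
      exact pow_le_pow_left₀ (abs_nonneg _) h3 2
    norm_num at h4
    linarith
  -- exponential factor
  have hv : X * Real.sin (Real.pi / 2 * d) ≤ 2 := by
    have h1 : Real.sin (Real.pi / 2 * d) ≤ Real.pi / 2 * d := Real.sin_le (by positivity)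
    have h2 : Real.pi / 2 * d ≤ 0.27722 := by nlinarith
    have h3 : Real.sin (Real.pi / 2 * d) ≤ 0.27722 := h1.trans h2
    nlinarith
  have hexp : 0.135 ≤ Real.exp (X * -Real.sin (Real.pi / 2 * d)) := by
    have h1 : Real.exp (-2) ≤ Real.exp (X * -Real.sin (Real.pi / 2 * d)) := by
      apply Real.exp_le_exp.mpr; linarith
    refine le_trans ?_ h1
    have h2 : Real.exp (-2) = (Real.exp 1 ^ 2)⁻¹ := by
      rw [Real.exp_neg, ← Real.exp_nat_mul]; norm_num
    rw [h2, ← one_div, le_div_iff₀ (by positivity)]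
    have := Real.exp_one_lt_d9
    have := Real.exp_one_gt_d9
    nlinarith
  have hre1 : 0.0621 ≤ (exp (exp (xi0 a (21 / 4)))).re := by
    rw [hre]
    nlinarith
  have hR := R_num ha ha1
  have h5 : 0.0621 ≤ 1 / a * (exp (exp (xi0 a (21 / 4)))).re := by
    have h6 : 1 ≤ 1 / a := by rw [le_div_iff₀ ha0]; linarith
    nlinarith
  have h7 : 1 / (Real.pi * (21 / 4) ^ 2) ≤ 0.0117 := by
    rw [div_le_iff₀ (by positivity)]
    norm_num
    linarith
  linarith

end Pool.Agent.Work.MP_ff8adc_an
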