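import Pool.Agent.Work.MP_ff8adc_an.RepD

set_option autoImplicit false

open Set Complex MeasureTheory Filter Topology

namespace Pool.Agent.Work.MP_ff8adc_an

lemma gamma_le_one {x : ℝ} (h1 : 1 ≤ x) (h2 : x ≤ 2) : Real.Gamma x ≤ 1 := by
  have hc := Real.convexOn_Gamma.2 (show (1:ℝ) ∈ Ioi (0:ℝ) by norm_num)
    (show (2:ℝ) ∈ Ioi (0:ℝ) by norm_num) (show 0 ≤ 2 - x by linarith)
    (show 0 ≤ x - 1 by linarith) (by ring)
  simp only [smul_eq_mul, Real.Gamma_one, Real.Gamma_two, mul_one] at hc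
  have e : 2 - x + (x - 1) * 2 = x := by ring
  rw [e] at hc
  linarith

lemma gamma_le_two {x : ℝ} (h1 : 2 ≤ x) (h2 : x ≤ 3) : Real.Gamma x ≤ 2 := by
  have h := Real.Gamma_add_one (show x - 1 ≠ 0 by linarith)
  rw [sub_add_cancel] at h
  have h3 := gamma_le_one (show 1 ≤ x - 1 by linarith) (by linarith)
  have h4 : 0 < Real.Gamma (x - 1) := Real.Gamma_pos_of_pos (by linarith)
  rw [h]
  nlinarith

/-- coefficient of `1/t` -/
lemma coef_lower {a : ℝ} (ha : 0 < a) (ha1 : a < 1) :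
    1 - a ≤ Real.sin (Real.pi * a) * Real.Gamma a / Real.pi := by
  have pi_pos := Real.pi_pos
  have hs : 0 < Real.sin (Real.pi * a) := Real.sin_pos_of_pos_of_lt_pi (by positivity)
    (by nlinarith)
  have hrefl := Real.Gamma_mul_Gamma_one_sub a
  have hG1 : 0 < Real.Gamma (1 - a) := Real.Gamma_pos_of_pos (by linarith)
  have h1 := Real.Gamma_add_one (show 1 - a ≠ 0 by linarith)
  have h2 := gamma_le_one (show 1 ≤ 1 - a + 1 by linarith) (by linarith)
  rw [h1] at h2
  have h3 : Real.sin (Real.pi * a) * Real.Gamma a / Real.pi = 1 / Real.Gamma (1 - a) := by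
    rw [eq_div_iff hs.ne'] at hrefl
    field_simp
    linarith
  rw [h3, le_div_iff₀ hG1]
  exact h2

lemma cos_half {a : ℝ} (ha : 2 / 3 ≤ a) (ha1 : a < 1) : 1 / 2 ≤ |Real.cos (Real.pi * a)| := by
  have pi_pos := Real.pi_pos
  have h1 : Real.cos (Real.pi * a) ≤ Real.cos (2 * Real.pi / 3) := by
    apply Real.cos_le_cos_of_nonneg_of_le_pi
    · positivity
    · nlinarith
    · nlinarith
  have h2 : Real.cos (2 * Real.pi / 3) = -(1 / 2) := by
    rw [show 2 * Real.pi / 3 = Real.pi - Real.pi / 3 by ring, Real.cos_pi_sub,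
      Real.cos_pi_div_three]
  rw [h2] at h1
  rw [abs_of_neg (by linarith)]
  linarith

/-- real and imaginary parts of the exponential term -/
lemma exp_xi0_re (a t : ℝ) :
    (exp (xi0 a t)).re = Real.exp (Real.log t / a) * Real.cos (Real.pi / (2 * a)) := by
  rw [Complex.exp_re, xi0_re, xi0_im]

lemma exp_xi0_im (a t : ℝ) :
    (exp (xi0 a t)).im = Real.exp (Real.log t / a) * Real.sin (Real.pi / (2 * a)) := by
  rw [Complex.exp_im, xi0_re, xi0_im]

lemma expexp_re (a t : ℝ) : (exp (exp (xi0 a t))).re =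
    Real.exp (Real.exp (Real.log t / a) * Real.cos (Real.pi / (2 * a))) *
      Real.cos (Real.exp (Real.log t / a) * Real.sin (Real.pi / (2 * a))) := by
  rw [Complex.exp_re (exp (xi0 a t)), exp_xi0_re, exp_xi0_im]

lemma expexp_im (a t : ℝ) : (exp (exp (xi0 a t))).im =
    Real.exp (Real.exp (Real.log t / a) * Real.cos (Real.pi / (2 * a))) *
      Real.sin (Real.exp (Real.log t / a) * Real.sin (Real.pi / (2 * a))) := by
  rw [Complex.exp_im (exp (xi0 a t)), exp_xi0_re, exp_xi0_im]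

lemma F_im_lower {a t : ℝ} (ha : 2 / 3 ≤ a) (ha1 : a < 1) (ht : 0 < t) (ht2 : t ≤ 11 / 2) :
    (1 / a) * (exp (exp (xi0 a t))).im + (1 - a) / t - Real.Gamma (3 * a) / (2 * Real.pi * t ^ 3) *
        (1 + 1 / |Real.cos (Real.pi * a)|) ≤ (F a t).im := by
  have pi_pos := Real.pi_pos
  obtain ⟨R, hR, hF⟩ := F_asymp ha ha1 ht ht2
  have h1 : (F a t).im = (1 / a) * (exp (exp (xi0 a t))).im +
      Real.sin (Real.pi * a) * Real.Gamma a / (Real.pi * t) + R.im := by
    rw [hF]
    have e1 : ((1:ℂ) / a * exp (exp (xi0 a t))).im = (1 / a) * (exp (exp (xi0 a t))).im := by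
      have : (1:ℂ) / a = ((1 / a : ℝ) : ℂ) := by push_cast; ring
      rw [this, Complex.im_ofReal_mul]
    simp only [Complex.add_im, Complex.im_ofReal_mul, Complex.ofReal_im, Complex.I_im, mul_one,
      add_zero, e1]
  have h2 : -‖R‖ ≤ R.im := by
    have := Complex.abs_im_le_norm R
    exact (abs_le.mp this).1
  have h3 := coef_lower (by linarith : 0 < a) ha1
  have h4 : (1 - a) / t ≤ Real.sin (Real.pi * a) * Real.Gamma a / (Real.pi * t) := by
    rw [← div_div]
    exact div_le_div_of_nonneg_right h3 ht.le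
  rw [h1]
  linarith

lemma F_re_lower {a t : ℝ} (ha : 2 / 3 ≤ a) (ha1 : a < 1) (ht : 0 < t) (ht2 : t ≤ 11 / 2) :
    (1 / a) * (exp (exp (xi0 a t))).re - 1 / (Real.pi * t ^ 2) -
      Real.Gamma (3 * a) / (2 * Real.pi * t ^ 3) *
        (1 + 1 / |Real.cos (Real.pi * a)|) ≤ (F a t).re := by
  have pi_pos := Real.pi_pos
  obtain ⟨R, hR, hF⟩ := F_asymp ha ha1 ht ht2
  have h1 : (F a t).re = (1 / a) * (exp (exp (xi0 a t))).re +
      Real.sin (2 * Real.pi * a) * Real.Gamma (2 * a) / (Real.pi * t ^ 2) + R.re := by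
    rw [hF]
    have e1 : ((1:ℂ) / a * exp (exp (xi0 a t))).re = (1 / a) * (exp (exp (xi0 a t))).re := by
      have : (1:ℂ) / a = ((1 / a : ℝ) : ℂ) := by push_cast; ring
      rw [this, Complex.re_ofReal_mul]
    simp only [Complex.add_re, Complex.re_ofReal_mul, Complex.ofReal_re, Complex.I_re, mul_zero,
      add_zero, e1]
  have h2 : -‖R‖ ≤ R.re := by
    have := Complex.abs_re_le_norm R
    exact (abs_le.mp this).1
  have hG : Real.Gamma (2 * a) ≤ 1 := gamma_le_one (by linarith) (by linarith)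
  have hG0 : 0 < Real.Gamma (2 * a) := Real.Gamma_pos_of_pos (by linarith)
  have hs := Real.neg_one_le_sin (2 * Real.pi * a)
  have h5 : -1 ≤ Real.sin (2 * Real.pi * a) * Real.Gamma (2 * a) := by nlinarith
  have h6 : -(1 / (Real.pi * t ^ 2)) ≤
      Real.sin (2 * Real.pi * a) * Real.Gamma (2 * a) / (Real.pi * t ^ 2) := by
    rw [← neg_div]
    exact div_le_div_of_nonneg_right h5 (by positivity)
  rw [h1]
  linarith

lemma R_bound {a t : ℝ} (ha : 2 / 3 ≤ a) (ha1 : a < 1) (ht : 0 < t) :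
    Real.Gamma (3 * a) / (2 * Real.pi * t ^ 3) * (1 + 1 / |Real.cos (Real.pi * a)|) ≤
      3 / (Real.pi * t ^ 3) := by
  have pi_pos := Real.pi_pos
  have h1 := gamma_le_two (show 2 ≤ 3 * a by linarith) (by linarith)
  have h2 := cos_half ha ha1
  have h3 : 1 / |Real.cos (Real.pi * a)| ≤ 2 := by
    rw [div_le_iff₀ (by linarith)]; linarith
  have h4 : 0 < Real.Gamma (3 * a) := Real.Gamma_pos_of_pos (by linarith)
  calc Real.Gamma (3 * a) / (2 * Real.pi * t ^ 3) * (1 + 1 / |Real.cos (Real.pi * a)|)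
      ≤ 2 / (2 * Real.pi * t ^ 3) * (1 + 2) := by
        apply mul_le_mul
        · exact div_le_div_of_nonneg_right h1 (by positivity)
        · linarith
        · positivity
        · positivity
    _ = 3 / (Real.pi * t ^ 3) := by field_simp; ring

end Pool.Agent.Work.MP_ff8adc_an
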