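import Mathlib

set_option autoImplicit false

open Set Complex MeasureTheory Filter Topology

namespace Pool.Agent.Work.MP_ff8adc_an

/-- `E x b = exp (-e^x + b x)`. -/
noncomputable def E (x b : ℝ) : ℝ := Real.exp (-Real.exp x + b * x)

lemma E_pos (x b : ℝ) : 0 < E x b := Real.exp_pos _

lemma E_continuous (b : ℝ) : Continuous (fun x => E x b) := by
  unfold E; fun_prop

lemma E_integral {b : ℝ} (hb : 0 < b) :
    Integrable (fun x => E x b) ∧ ∫ x, E x b = Real.Gamma b := by
  have himg : Real.exp '' univ = Ioi 0 := by rw [image_univ, Real.range_exp]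
  have hd : ∀ x ∈ (univ : Set ℝ), HasDerivWithinAt Real.exp (Real.exp x) univ x :=
    fun x _ => (Real.hasDerivAt_exp x).hasDerivWithinAt
  have hinj : InjOn Real.exp univ := Real.exp_injective.injOn
  have hform : ∀ x : ℝ, |Real.exp x| • (Real.exp (-Real.exp x) * Real.exp x ^ (b - 1)) = E x b := by
    intro x
    rw [abs_of_pos (Real.exp_pos x), smul_eq_mul, E, ← Real.exp_mul, ← Real.exp_add,
      ← Real.exp_add]
    congr 1; ring
  constructor
  · have h1 := (integrableOn_image_iff_integrableOn_abs_deriv_smul MeasurableSet.univ hd hinj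
      (fun r => Real.exp (-r) * r ^ (b - 1))).mp (by
        rw [himg]; exact Real.GammaIntegral_convergent hb)
    rw [integrableOn_univ] at h1
    exact h1.congr (Eventually.of_forall hform)
  · have h2 := integral_image_eq_integral_abs_deriv_smul MeasurableSet.univ hd hinj
      (fun r => Real.exp (-r) * r ^ (b - 1))
    rw [himg, ← Real.Gamma_eq_integral hb, Measure.restrict_univ] at h2
    rw [h2]
    exact integral_congr_ae (Eventually.of_forall fun x => (hform x).symm)

lemma E_intOn (b c : ℝ) : IntegrableOn (fun x => E x b) (Ioi c) := by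
  rcases le_or_gt b 1 with hb | hb
  · have h1 : IntegrableOn (fun x => Real.exp ((b - 1) * c) * E x 1) (Ioi c) :=
      ((E_integral one_pos).1.integrableOn).const_mul _
    refine Integrable.mono' h1 (E_continuous b).aestronglyMeasurable ?_
    filter_upwards [self_mem_ae_restrict measurableSet_Ioi] with x hx
    rw [Real.norm_of_nonneg (E_pos x b).le, E, E, ← Real.exp_add]
    apply Real.exp_le_exp.mpr
    have hx' : c < x := hx
    nlinarith
  · exact (E_integral (by linarith)).1.integrableOn

/-- The U-shaped contour integral (open to the right), in logarithmic coordinates. -/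
noncomputable def U (c : ℝ) (f : ℂ → ℂ) : ℂ :=
  (∫ x in Ioi c, (f (x + Real.pi * I) - f (x - Real.pi * I))) +
    I * ∫ y in (-Real.pi)..Real.pi, f (c + y * I)

lemma U_shift {f : ℂ → ℂ} {c' c : ℝ} (hcc : c' ≤ c) {s : Set ℂ} (hs : s.Countable)
    (hcont : ContinuousOn f {ξ | c' ≤ ξ.re ∧ -Real.pi ≤ ξ.im ∧ ξ.im ≤ Real.pi})
    (hd : ∀ ξ : ℂ, c' < ξ.re → -Real.pi < ξ.im → ξ.im < Real.pi → ξ ∉ s → DifferentiableAt ℂ f ξ)
    (hint : IntegrableOn (fun x : ℝ => f (x + Real.pi * I) - f (x - Real.pi * I)) (Ioi c')) :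
    U c' f = U c f := by
  have pi_pos := Real.pi_pos
  have hpp : -Real.pi ≤ Real.pi := by linarith
  have key := Complex.integral_boundary_rect_eq_zero_of_differentiable_on_off_countable f
    (⟨c', -Real.pi⟩ : ℂ) (⟨c, Real.pi⟩ : ℂ) s hs
    (by
      apply hcont.mono
      intro ξ hξ
      rw [Complex.mem_reProdIm] at hξ
      simp only [uIcc_of_le hcc, uIcc_of_le hpp] at hξ
      exact ⟨hξ.1.1, hξ.2.1, hξ.2.2⟩)
    (by
      intro ξ hξ
      obtain ⟨hξ1, hξ2⟩ := hξ
      rw [Complex.mem_reProdIm] at hξ1
      simp only [min_eq_left hcc, max_eq_right hcc, min_eq_left hpp, max_eq_right hpp] at hξ1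
      exact hd ξ hξ1.1.1 hξ1.2.1 hξ1.2.2 hξ2)
  simp only at key
  have hc1 : ContinuousOn (fun x : ℝ => f (x + Real.pi * I)) (uIcc c' c) := by
    apply hcont.comp (by fun_prop)
    intro x hx
    rw [uIcc_of_le hcc] at hx
    simp only [Set.mem_ofPred_eq, add_re, ofReal_re, mul_re, I_re, mul_zero, ofReal_im, I_im, mul_one,
      sub_self, add_zero, add_im, mul_im, zero_add]
    exact ⟨hx.1, hpp, le_rfl⟩
  have hc2 : ContinuousOn (fun x : ℝ => f (x - Real.pi * I)) (uIcc c' c) := by
    apply hcont.comp (by fun_prop)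
    intro x hx
    rw [uIcc_of_le hcc] at hx
    simp only [Set.mem_ofPred_eq, sub_re, ofReal_re, mul_re, I_re, mul_zero, ofReal_im, I_im, mul_one,
      sub_self, sub_zero, sub_im, mul_im, zero_sub, add_zero]
    exact ⟨hx.1, le_rfl, hpp⟩
  have hi1 : IntervalIntegrable (fun x : ℝ => f (x + Real.pi * I)) volume c' c :=
    hc1.intervalIntegrable
  have hi2 : IntervalIntegrable (fun x : ℝ => f (x - Real.pi * I)) volume c' c :=
    hc2.intervalIntegrable
  have hsplit := intervalIntegral.integral_interval_add_Ioi hint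
    (hint.mono_set (Ioi_subset_Ioi hcc))
  have hsub := intervalIntegral.integral_sub hi1 hi2
  unfold U
  rw [← hsplit, hsub]
  have e1 : ∀ x : ℝ, f (↑x + ↑(-Real.pi) * I) = f (x - Real.pi * I) := by
    intro x; congr 1; push_cast; ring
  simp only [e1, smul_eq_mul] at key
  linear_combination -key

/-- The Hankel integrand. -/
noncomputable def h (w : ℝ) (ξ : ℂ) : ℂ := exp (exp ξ + (1 - w) * ξ)

lemma h_differentiable (w : ℝ) : Differentiable ℂ (h w) := by
  unfold h; fun_prop

lemma exp_add_pi (x : ℝ) : exp ((x:ℂ) + Real.pi * I) = -(Real.exp x : ℂ) := by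
  rw [Complex.exp_add, Complex.exp_pi_mul_I, Complex.ofReal_exp]; ring

lemma exp_sub_pi (x : ℝ) : exp ((x:ℂ) - Real.pi * I) = -(Real.exp x : ℂ) := by
  rw [Complex.exp_sub, Complex.exp_pi_mul_I, Complex.ofReal_exp, div_neg, div_one]

lemma h_up (w x : ℝ) : h w (x + Real.pi * I) = (E x (1 - w) : ℂ) * exp ((1 - w) * Real.pi * I) := by
  unfold h E
  rw [exp_add_pi, Complex.ofReal_exp (-Real.exp x + (1 - w) * x), ← Complex.exp_add]
  congr 1; push_cast; ring

lemma h_down (w x : ℝ) :
    h w (x - Real.pi * I) = (E x (1 - w) : ℂ) * exp (-((1 - w) * Real.pi * I)) := by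
  unfold h E
  rw [exp_sub_pi, Complex.ofReal_exp (-Real.exp x + (1 - w) * x), ← Complex.exp_add]
  congr 1; push_cast; ring

lemma h_diff (w x : ℝ) : h w (x + Real.pi * I) - h w (x - Real.pi * I) =
    (2 * I * Real.sin ((1 - w) * Real.pi)) * (E x (1 - w) : ℂ) := by
  rw [h_up, h_down]
  have : ((Real.sin ((1 - w) * Real.pi) : ℝ) : ℂ) = Complex.sin ((1 - w) * Real.pi) := by
    push_cast; rfl
  rw [this, Complex.sin]
  have hI : I * I = -1 := I_mul_I
  have e1 : -((1 - (w:ℂ)) * Real.pi) * I = -((1 - w) * Real.pi * I) := by ring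
  rw [e1]
  linear_combination (-(E x (1 - w) : ℂ) * (exp (-((1 - (w:ℂ)) * Real.pi * I)) -
    exp ((1 - (w:ℂ)) * Real.pi * I))) * hI

lemma h_up_intOn (w c : ℝ) : IntegrableOn (fun x : ℝ => h w (x + Real.pi * I)) (Ioi c) := by
  simp only [h_up]
  exact ((E_intOn (1 - w) c).ofReal).mul_const _

lemma h_down_intOn (w c : ℝ) : IntegrableOn (fun x : ℝ => h w (x - Real.pi * I)) (Ioi c) := by
  simp only [h_down]
  exact ((E_intOn (1 - w) c).ofReal).mul_const _

lemma U_h_indep (w : ℝ) {c' c : ℝ} (hcc : c' ≤ c) : U c' (h w) = U c (h w) := by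
  apply U_shift hcc countable_empty
  · exact (h_differentiable w).continuous.continuousOn
  · intro ξ _ _ _ _
    exact (h_differentiable w) ξ
  · exact (h_up_intOn w c').sub (h_down_intOn w c')

lemma h_hasDerivAt (w : ℝ) (ξ : ℂ) : HasDerivAt (h (w + 1)) (h w ξ - w * h (w + 1) ξ) ξ := by
  unfold h
  have h1 : HasDerivAt (fun ξ : ℂ => exp ξ + (1 - ((w + 1 : ℝ) : ℂ)) * ξ)
      (exp ξ + (1 - ((w + 1 : ℝ) : ℂ)) * 1) ξ :=
    (Complex.hasDerivAt_exp ξ).add ((hasDerivAt_id ξ).const_mul _)
  have h2 := h1.cexp
  have h3 : exp (exp ξ + (1 - (w:ℂ)) * ξ) = exp (exp ξ + (1 - ((w + 1 : ℝ) : ℂ)) * ξ) * exp ξ := by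
    rw [← Complex.exp_add]; congr 1; push_cast; ring
  have h4 : exp (exp ξ + (1 - (w:ℂ)) * ξ) - w * exp (exp ξ + (1 - ((w + 1 : ℝ) : ℂ)) * ξ) =
      exp (exp ξ + (1 - ((w + 1 : ℝ) : ℂ)) * ξ) * (exp ξ + (1 - ((w + 1 : ℝ) : ℂ)) * 1) := by
    rw [h3]; push_cast; ring
  rw [h4]
  exact h2

lemma E_tendsto (b : ℝ) : Tendsto (fun x => E x b) atTop (𝓝 0) := by
  unfold E
  have h1 : Tendsto (fun x : ℝ => Real.exp x - b * x) atTop atTop := by
    have h2 : Tendsto (fun x : ℝ => x * (Real.exp x / x - b)) atTop atTop := by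
      apply Tendsto.atTop_mul_atTop₀ tendsto_id
      apply tendsto_atTop_add_const_right
      have := Real.tendsto_exp_div_pow_atTop 1
      simpa using this
    refine h2.congr' ?_
    filter_upwards [eventually_gt_atTop 0] with x hx
    field_simp
  have h3 : Tendsto (fun x : ℝ => Real.exp (-(Real.exp x - b * x))) atTop (𝓝 0) :=
    Real.tendsto_exp_neg_atTop_nhds_zero.comp h1
  refine h3.congr (fun x => ?_)
  congr 1; ring

lemma U_h_rec (w c : ℝ) : U c (h w) = w * U c (h (w + 1)) := by
  -- integrals of the total derivative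
  have pi_pos := Real.pi_pos
  have hup : ∫ x in Ioi c, (h w (x + Real.pi * I) - w * h (w + 1) (x + Real.pi * I)) =
      0 - h (w + 1) (c + Real.pi * I) := by
    apply integral_Ioi_of_hasDerivAt_of_tendsto' (f := fun x : ℝ => h (w+1) (x + Real.pi * I))
    · intro x _
      have h1 : HasDerivAt (fun x : ℝ => (x:ℂ) + Real.pi * I) 1 x :=
        (Complex.ofRealCLM.hasDerivAt (x := x)).add_const _
      have := (h_hasDerivAt w (x + Real.pi * I)).comp x h1
      rw [mul_one] at this
      exact this
    · exact (h_up_intOn w c).sub ((h_up_intOn (w + 1) c).const_mul _)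
    · simp only [h_up]
      have := (Complex.continuous_ofReal.tendsto 0).comp (E_tendsto (1 - (w + 1)))
      have h2 := this.mul_const (exp ((1 - ((w + 1 : ℝ) : ℂ)) * Real.pi * I))
      simpa using h2
  have hdown : ∫ x in Ioi c, (h w (x - Real.pi * I) - w * h (w + 1) (x - Real.pi * I)) =
      0 - h (w + 1) (c - Real.pi * I) := by
    apply integral_Ioi_of_hasDerivAt_of_tendsto' (f := fun x : ℝ => h (w+1) (x - Real.pi * I))
    · intro x _
      have h1 : HasDerivAt (fun x : ℝ => (x:ℂ) - Real.pi * I) 1 x :=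
        (Complex.ofRealCLM.hasDerivAt (x := x)).sub_const _
      have := (h_hasDerivAt w (x - Real.pi * I)).comp x h1
      rw [mul_one] at this
      exact this
    · exact (h_down_intOn w c).sub ((h_down_intOn (w + 1) c).const_mul _)
    · simp only [h_down]
      have := (Complex.continuous_ofReal.tendsto 0).comp (E_tendsto (1 - (w + 1)))
      have h2 := this.mul_const (exp (-((1 - ((w + 1 : ℝ) : ℂ)) * Real.pi * I)))
      simpa using h2
  have hvert : ∫ y in (-Real.pi)..Real.pi, (h w (c + y * I) - w * h (w + 1) (c + y * I)) * I =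
      h (w + 1) (c + Real.pi * I) - h (w + 1) (c + ((-Real.pi : ℝ) : ℂ) * I) := by
    apply intervalIntegral.integral_eq_sub_of_hasDerivAt
      (f := fun y : ℝ => h (w + 1) (c + y * I))
    · intro y _
      have h1 : HasDerivAt (fun y : ℝ => (c:ℂ) + y * I) I y := by
        have := ((Complex.ofRealCLM.hasDerivAt (x := y)).mul_const I).const_add (c:ℂ)
        simpa using this
      have := HasDerivAt.comp y (h_hasDerivAt w (c + y * I)) h1
      exact this
    · apply Continuous.intervalIntegrable
      have h1 := (h_differentiable w).continuous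
      have h2 := (h_differentiable (w + 1)).continuous
      fun_prop
  have hcw := (h_differentiable w).continuous
  have hcw1 := (h_differentiable (w + 1)).continuous
  have hv' : (I * ∫ y in (-Real.pi)..Real.pi, h w (c + y * I)) -
      w * (I * ∫ y in (-Real.pi)..Real.pi, h (w + 1) (c + y * I)) =
      h (w + 1) (c + Real.pi * I) - h (w + 1) (c + ((-Real.pi : ℝ) : ℂ) * I) := by
    rw [← hvert, intervalIntegral.integral_mul_const, intervalIntegral.integral_sub,
      intervalIntegral.integral_const_mul]
    · ring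
    · apply Continuous.intervalIntegrable; fun_prop
    · apply Continuous.intervalIntegrable; fun_prop
  have hu' := integral_sub (h_up_intOn w c) ((h_up_intOn (w + 1) c).const_mul (w:ℂ))
  have hd' := integral_sub (h_down_intOn w c) ((h_down_intOn (w + 1) c).const_mul (w:ℂ))
  rw [hup] at hu'
  rw [hdown] at hd'
  unfold U
  rw [integral_sub (h_up_intOn w c) (h_down_intOn w c),
    integral_sub (h_up_intOn (w + 1) c) (h_down_intOn (w + 1) c)]
  rw [integral_const_mul] at hu' hd'
  have e1 : (c:ℂ) + ((-Real.pi : ℝ) : ℂ) * I = c - Real.pi * I := by push_cast; ring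
  rw [e1] at hv'
  linear_combination hv' - hu' + hd'

lemma norm_exp_vert (c y : ℝ) : ‖exp ((c:ℂ) + y * I)‖ = Real.exp c := by
  rw [Complex.norm_exp]; simp

lemma U_h_base {w : ℝ} (hw0 : 0 < w) (hw1 : w ≤ 1) (c : ℝ) :
    U c (h w) = 2 * Real.pi * I / (Real.Gamma w : ℂ) := by
  have pi_pos := Real.pi_pos
  have hconst : Tendsto (fun c' : ℝ => U c' (h w)) atBot (𝓝 (U c (h w))) := by
    apply tendsto_const_nhds.congr'
    filter_upwards [eventually_le_atBot c] with c' hc'
    exact (U_h_indep w hc').symm
  refine tendsto_nhds_unique hconst ?_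
  rcases lt_or_eq_of_le hw1 with hlt | heq
  · -- w < 1
    have hb : 0 < 1 - w := by linarith
    have hhor : Tendsto (fun c' : ℝ =>
        ∫ x in Ioi c', (h w (x + Real.pi * I) - h w (x - Real.pi * I))) atBot
        (𝓝 (∫ x : ℝ, (h w (x + Real.pi * I) - h w (x - Real.pi * I)))) := by
      have hI : Integrable (fun x : ℝ => h w (x + Real.pi * I) - h w (x - Real.pi * I)) := by
        simp only [h_diff]
        exact ((E_integral hb).1.ofReal).const_mul _
      have hcov := AECover.integral_tendsto_of_countably_generated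
        (aecover_Ioi (μ := volume) (a := fun c' : ℝ => c') tendsto_id) hI
      exact hcov
    have hval : (∫ x : ℝ, (h w (x + Real.pi * I) - h w (x - Real.pi * I))) =
        2 * Real.pi * I / (Real.Gamma w : ℂ) := by
      simp only [h_diff]
      rw [integral_const_mul, integral_complex_ofReal, (E_integral hb).2]
      have hrefl := Real.Gamma_mul_Gamma_one_sub w
      have hsin : Real.sin ((1 - w) * Real.pi) = Real.sin (Real.pi * w) := by
        rw [show (1 - w) * Real.pi = Real.pi - Real.pi * w by ring, Real.sin_pi_sub]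
      have hsp : 0 < Real.sin (Real.pi * w) := by
        apply Real.sin_pos_of_pos_of_lt_pi
        · positivity
        · nlinarith
      have hGp : 0 < Real.Gamma w := Real.Gamma_pos_of_pos hw0
      have hmain : Real.sin ((1 - w) * Real.pi) * Real.Gamma (1 - w) = Real.pi / Real.Gamma w := by
        rw [hsin]
        rw [eq_div_iff hGp.ne']
        rw [eq_div_iff hsp.ne'] at hrefl
        linarith
      have : ((Real.sin ((1 - w) * Real.pi) : ℝ) : ℂ) * ((Real.Gamma (1 - w) : ℝ) : ℂ) =
          (Real.pi : ℂ) / (Real.Gamma w : ℂ) := by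
        exact_mod_cast congrArg (fun r : ℝ => (r : ℂ)) hmain
      linear_combination (2 * I) * this
    rw [hval] at hhor
    have hver : Tendsto (fun c' : ℝ => I * ∫ y in (-Real.pi)..Real.pi, h w (c' + y * I)) atBot
        (𝓝 0) := by
      rw [tendsto_zero_iff_norm_tendsto_zero]
      have hbound : ∀ c' : ℝ, ‖I * ∫ y in (-Real.pi)..Real.pi, h w (c' + y * I)‖ ≤
          Real.exp (Real.exp c' + (1 - w) * c') * |Real.pi - (-Real.pi)| := by
        intro c'
        rw [norm_mul, Complex.norm_I, one_mul]
        apply intervalIntegral.norm_integral_le_of_norm_le_const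
        intro y _
        unfold h
        rw [Complex.norm_exp]
        apply Real.exp_le_exp.mpr
        have h1 : (exp ((c':ℂ) + y * I)).re ≤ Real.exp c' := by
          calc (exp ((c':ℂ) + y * I)).re ≤ ‖exp ((c':ℂ) + y * I)‖ := Complex.re_le_norm _
            _ = Real.exp c' := norm_exp_vert c' y
        have h2 : ((1 - (w:ℂ)) * ((c':ℂ) + y * I)).re = (1 - w) * c' := by
          simp
        rw [Complex.add_re, h2]
        linarith
      refine squeeze_zero (fun c' => norm_nonneg _) hbound ?_
      have h3 : Tendsto (fun c' : ℝ => Real.exp (Real.exp c' + (1 - w) * c')) atBot (𝓝 0) := by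
        apply Real.tendsto_exp_atBot.comp
        apply Tendsto.add_atBot (C := 0) Real.tendsto_exp_atBot
        exact Tendsto.const_mul_atBot hb tendsto_id
      simpa using h3.mul_const (|Real.pi - (-Real.pi)|)
    have := hhor.add hver
    rw [add_zero] at this
    exact this
  · -- w = 1
    subst heq
    have hhor : ∀ c' : ℝ,
        ∫ x in Ioi c', (h 1 (x + Real.pi * I) - h 1 (x - Real.pi * I)) = 0 := by
      intro c'
      simp only [h_diff]
      simp
    have hver : Tendsto (fun c' : ℝ => I * ∫ y in (-Real.pi)..Real.pi, h 1 (c' + y * I)) atBot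
        (𝓝 (2 * Real.pi * I)) := by
      have hdiff : Tendsto (fun c' : ℝ => I * (∫ y in (-Real.pi)..Real.pi, h 1 (c' + y * I)) -
          I * ∫ y in (-Real.pi)..Real.pi, (1:ℂ)) atBot (𝓝 0) := by
        rw [tendsto_zero_iff_norm_tendsto_zero]
        have hbound : ∀ᶠ c' : ℝ in atBot, ‖I * (∫ y in (-Real.pi)..Real.pi, h 1 (c' + y * I)) -
          I * ∫ y in (-Real.pi)..Real.pi, (1:ℂ)‖ ≤
            (2 * Real.exp c') * |Real.pi - (-Real.pi)| := by
          filter_upwards [eventually_le_atBot (0:ℝ)] with c' hc'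
          rw [← mul_sub, norm_mul, Complex.norm_I, one_mul, ← intervalIntegral.integral_sub]
          · apply intervalIntegral.norm_integral_le_of_norm_le_const
            intro y _
            unfold h
            have h1 : exp ((c':ℂ) + y * I) + (1 - ((1:ℝ):ℂ)) * ((c':ℂ) + y * I) =
                exp ((c':ℂ) + y * I) := by
              simp
            rw [h1]
            have h2 := norm_exp_vert c' y
            rw [← h2]
            apply Complex.norm_exp_sub_one_le
            rw [h2]
            exact Real.exp_le_one_iff.mpr hc'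
          · apply Continuous.intervalIntegrable
            have := (h_differentiable 1).continuous
            fun_prop
          · exact intervalIntegrable_const
        refine squeeze_zero' (Eventually.of_forall fun c' => norm_nonneg _) hbound ?_
        have h3 := (Real.tendsto_exp_atBot.const_mul 2).mul_const (|Real.pi - (-Real.pi)|)
        simpa using h3
      have h4 : I * ∫ y in (-Real.pi)..Real.pi, (1:ℂ) = 2 * Real.pi * I := by
        rw [intervalIntegral.integral_const]
        simp
        ring
      have h5 := hdiff.add_const (I * ∫ y in (-Real.pi)..Real.pi, (1:ℂ))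
      simp only [sub_add_cancel, zero_add] at h5
      rw [h4] at h5
      exact h5
    unfold U
    simp only [hhor, zero_add]
    rw [Real.Gamma_one]
    simpa using hver

/-- **Hankel's formula** in logarithmic coordinates. -/
theorem U_h (c : ℝ) : ∀ (n : ℕ) (w : ℝ), 0 < w → w ≤ n + 1 →
    U c (h w) = 2 * Real.pi * I / (Real.Gamma w : ℂ) := by
  intro n
  induction n with
  | zero =>
    intro w hw0 hw1
    exact U_h_base hw0 (by simpa using hw1) c
  | succ n ih =>
    intro w hw0 hw1
    rcases le_or_gt w 1 with hle | hgt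
    · exact U_h_base hw0 hle c
    · have hw' : 0 < w - 1 := by linarith
      have h1 := ih (w - 1) hw' (by push_cast at hw1; linarith)
      have h2 := U_h_rec (w - 1) c
      rw [sub_add_cancel] at h2
      have h3 : Real.Gamma w = (w - 1) * Real.Gamma (w - 1) := by
        have := Real.Gamma_add_one hw'.ne'
        rwa [sub_add_cancel] at this
      have hG : 0 < Real.Gamma (w - 1) := Real.Gamma_pos_of_pos hw'
      rw [h1] at h2
      have hne : ((w - 1 : ℝ) : ℂ) ≠ 0 := by exact_mod_cast hw'.ne'
      have hGne : ((Real.Gamma (w - 1) : ℝ) : ℂ) ≠ 0 := by exact_mod_cast hG.ne'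
      rw [h3]
      have h4 : U c (h w) = (2 * Real.pi * I / (Real.Gamma (w - 1) : ℂ)) / ((w - 1 : ℝ) : ℂ) := by
        rw [eq_div_iff hne, h2]; ring
      rw [h4, Complex.ofReal_mul]
      field_simp

end Pool.Agent.Work.MP_ff8adc_an
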