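import Mathlib

set_option autoImplicit false

open Set Complex MeasureTheory

namespace Pool.Agent.Work.MP_ff8adc_an

/-- Elementary lower bound for the Gamma function: `M^x e^{-M} ≤ Γ(x+1)`. -/
lemma gamma_lower (M x : ℝ) (hM : 0 < M) (hx : 0 ≤ x) :
    M ^ x * Real.exp (-M) ≤ Real.Gamma (x + 1) := by
  have hx1 : 0 < x + 1 := by linarith
  rw [Real.Gamma_eq_integral hx1]
  have hint : IntegrableOn (fun r : ℝ => Real.exp (-r) * r ^ (x + 1 - 1)) (Ioi 0) :=
    Real.GammaIntegral_convergent hx1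
  have hsub : Ioi M ⊆ Ioi (0:ℝ) := Ioi_subset_Ioi hM.le
  have h1 : ∫ r in Ioi M, Real.exp (-r) * r ^ (x + 1 - 1) ≤
      ∫ r in Ioi (0:ℝ), Real.exp (-r) * r ^ (x + 1 - 1) := by
    apply setIntegral_mono_set hint _ hsub.eventuallyLE
    filter_upwards [self_mem_ae_restrict measurableSet_Ioi] with r hr
    exact mul_nonneg (Real.exp_pos _).le (Real.rpow_nonneg (le_of_lt hr) _)
  have h2 : ∫ r in Ioi M, M ^ x * Real.exp (-r) ≤
      ∫ r in Ioi M, Real.exp (-r) * r ^ (x + 1 - 1) := by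
    apply setIntegral_mono_on
    · exact (integrableOn_exp_neg_Ioi M).const_mul _
    · exact hint.mono_set hsub
    · exact measurableSet_Ioi
    · intro r hr
      rw [mul_comm]
      apply mul_le_mul_of_nonneg_left _ (Real.exp_pos _).le
      rw [add_sub_cancel_right]
      exact Real.rpow_le_rpow hM.le (le_of_lt hr) hx
  rw [integral_const_mul, integral_exp_neg_Ioi] at h2
  exact h2.trans h1

/-- The Mittag-Leffler function on the imaginary axis. -/
noncomputable def F (a t : ℝ) : ℂ := ∑' k : ℕ, ((t : ℂ) * I) ^ k / (Real.Gamma (a * k + 1) : ℂ)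

lemma gamma_lower_27 (a : ℝ) (ha : 2 / 3 ≤ a) (k : ℕ) :
    (9:ℝ) ^ k * Real.exp (-27) ≤ Real.Gamma (a * k + 1) := by
  have hk : (0:ℝ) ≤ k := Nat.cast_nonneg k
  have h := gamma_lower 27 (a * k) (by norm_num) (by positivity)
  refine le_trans ?_ h
  apply mul_le_mul_of_nonneg_right _ (Real.exp_pos _).le
  have h9 : (9:ℝ) ^ k = (27:ℝ) ^ ((2/3 : ℝ) * k) := by
    rw [Real.rpow_mul (by norm_num)]
    rw [Real.rpow_natCast]
    congr 1
    rw [show (27:ℝ) = 3 ^ (3:ℝ) by norm_num, ← Real.rpow_mul (by norm_num)]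
    norm_num
  rw [h9]
  apply Real.rpow_le_rpow_of_exponent_le (by norm_num)
  exact mul_le_mul_of_nonneg_right ha hk

lemma term_bound (a t : ℝ) (ha : 2 / 3 ≤ a) (ht : |t| ≤ 11 / 2) (k : ℕ) :
    ‖((t : ℂ) * I) ^ k / (Real.Gamma (a * k + 1) : ℂ)‖ ≤ Real.exp 27 * (11 / 18) ^ k := by
  have hG := gamma_lower_27 a ha k
  have hpos : 0 < (9:ℝ) ^ k * Real.exp (-27) := by positivity
  have hGpos : 0 < Real.Gamma (a * k + 1) := lt_of_lt_of_le hpos hG
  rw [norm_div, norm_pow, norm_mul, Complex.norm_I, mul_one, Complex.norm_real, Complex.norm_real,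
    Real.norm_eq_abs, Real.norm_of_nonneg hGpos.le]
  have h1 : |t| ^ k ≤ (11/2 : ℝ) ^ k := pow_le_pow_left₀ (abs_nonneg t) ht k
  calc |t| ^ k / Real.Gamma (a * k + 1) ≤ (11/2 : ℝ) ^ k / ((9:ℝ) ^ k * Real.exp (-27)) := by
        gcongr
    _ = Real.exp 27 * (11 / 18) ^ k := by
        rw [Real.exp_neg]
        have : (11/18 : ℝ) ^ k = (11/2)^k / 9^k := by
          rw [← div_pow]; norm_num
        rw [this]
        field_simp

lemma summable_bound : Summable (fun k : ℕ => Real.exp 27 * (11 / 18 : ℝ) ^ k) :=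
  (summable_geometric_of_lt_one (by norm_num) (by norm_num)).mul_left _

lemma summable_term (a t : ℝ) (ha : 2 / 3 ≤ a) (ht : |t| ≤ 11 / 2) :
    Summable (fun k : ℕ => ((t : ℂ) * I) ^ k / (Real.Gamma (a * k + 1) : ℂ)) :=
  Summable.of_norm_bounded summable_bound (term_bound a t ha ht)

lemma F_zero (a : ℝ) : F a 0 = 1 := by
  unfold F
  rw [tsum_eq_single 0]
  · simp
  · intro k hk
    simp [hk]

lemma F_one (t : ℝ) : F 1 t = exp (t * I) := by
  unfold F
  rw [Complex.exp_eq_exp_ℂ, NormedSpace.exp_eq_tsum_div]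
  apply tsum_congr
  intro k
  congr 1
  rw [one_mul, Real.Gamma_nat_eq_factorial]
  norm_cast

lemma F_continuousOn :
    ContinuousOn (fun q : ℝ × ℝ => F q.1 q.2) (Icc (2/3) 1 ×ˢ Icc 0 (11/2)) := by
  unfold F
  apply continuousOn_tsum (u := fun k : ℕ => Real.exp 27 * (11 / 18 : ℝ) ^ k)
  · intro k
    apply ContinuousOn.div
    · fun_prop
    · apply Complex.continuous_ofReal.comp_continuousOn
      intro q hq
      have hk : (0:ℝ) ≤ k := Nat.cast_nonneg k
      have hq1 : (2/3 : ℝ) ≤ q.1 := hq.1.1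
      have hpos : 0 < q.1 * k + 1 := by positivity
      have hG : ContinuousAt Real.Gamma (q.1 * k + 1) := by
        apply (Real.differentiableAt_Gamma _).continuousAt
        intro m hm
        have : (0:ℝ) ≤ m := Nat.cast_nonneg m
        linarith
      apply ContinuousAt.continuousWithinAt
      exact ContinuousAt.comp (f := fun q : ℝ × ℝ => q.1 * k + 1) hG (by fun_prop)
    · intro q hq
      have hk : (0:ℝ) ≤ k := Nat.cast_nonneg k
      have hq1 : (2/3 : ℝ) ≤ q.1 := hq.1.1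
      have hpos : 0 < q.1 * k + 1 := by positivity
      exact_mod_cast (Real.Gamma_pos_of_pos hpos).ne'
  · exact summable_bound
  · intro k q hq
    apply term_bound _ _ hq.1.1
    rw [abs_of_nonneg hq.2.1]
    exact hq.2.2

end Pool.Agent.Work.MP_ff8adc_an
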