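import Pool.Agent.Work.MP_ff8adc_an.Hankel
import Pool.Agent.Work.MP_ff8adc_an.Series

set_option autoImplicit false

open Set Complex MeasureTheory Filter Topology

namespace Pool.Agent.Work.MP_ff8adc_an

/-- Integrability of a function on the contour `U_c`. -/
structure Good (c : ℝ) (f : ℂ → ℂ) : Prop where
  up : IntegrableOn (fun x : ℝ => f (x + Real.pi * I)) (Ioi c)
  down : IntegrableOn (fun x : ℝ => f (x - Real.pi * I)) (Ioi c)
  vert : IntervalIntegrable (fun y : ℝ => f (c + y * I)) volume (-Real.pi) Real.pi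

lemma Good.add {c : ℝ} {f g : ℂ → ℂ} (hf : Good c f) (hg : Good c g) :
    Good c (fun ξ => f ξ + g ξ) :=
  ⟨hf.up.add hg.up, hf.down.add hg.down, hf.vert.add hg.vert⟩

lemma Good.sub {c : ℝ} {f g : ℂ → ℂ} (hf : Good c f) (hg : Good c g) :
    Good c (fun ξ => f ξ - g ξ) :=
  ⟨hf.up.sub hg.up, hf.down.sub hg.down, hf.vert.sub hg.vert⟩

lemma Good.const_mul {c : ℝ} {f : ℂ → ℂ} (hf : Good c f) (k : ℂ) :
    Good c (fun ξ => k * f ξ) :=
  ⟨hf.up.const_mul k, hf.down.const_mul k, hf.vert.const_mul k⟩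

lemma U_add {c : ℝ} {f g : ℂ → ℂ} (hf : Good c f) (hg : Good c g) :
    U c (fun ξ => f ξ + g ξ) = U c f + U c g := by
  unfold U
  rw [intervalIntegral.integral_add hf.vert hg.vert]
  rw [integral_sub hf.up hf.down, integral_sub hg.up hg.down,
    integral_sub (hf.add hg).up (hf.add hg).down, integral_add hf.up hg.up,
    integral_add hf.down hg.down]
  ring

lemma U_sub {c : ℝ} {f g : ℂ → ℂ} (hf : Good c f) (hg : Good c g) :
    U c (fun ξ => f ξ - g ξ) = U c f - U c g := by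
  unfold U
  rw [intervalIntegral.integral_sub hf.vert hg.vert]
  rw [integral_sub hf.up hf.down, integral_sub hg.up hg.down,
    integral_sub (hf.sub hg).up (hf.sub hg).down, integral_sub hf.up hg.up,
    integral_sub hf.down hg.down]
  ring

lemma U_const_mul {c : ℝ} {f : ℂ → ℂ} (k : ℂ) :
    U c (fun ξ => k * f ξ) = k * U c f := by
  unfold U
  rw [intervalIntegral.integral_const_mul]
  simp only [← mul_sub]
  rw [integral_const_mul]
  ring

lemma Good_h (c w : ℝ) : Good c (h w) := by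
  refine ⟨h_up_intOn w c, h_down_intOn w c, ?_⟩
  apply Continuous.intervalIntegrable
  have := (h_differentiable w).continuous
  fun_prop

lemma Good_sum {c : ℝ} (f : ℕ → ℂ → ℂ) (hf : ∀ k, Good c (f k)) (N : ℕ) :
    Good c (fun ξ => ∑ k ∈ Finset.range N, f k ξ) := by
  induction N with
  | zero =>
    simp only [Finset.range_zero, Finset.sum_empty]
    exact ⟨integrableOn_zero, integrableOn_zero, intervalIntegrable_const⟩
  | succ n ih =>
    simp only [Finset.sum_range_succ]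
    exact ih.add (hf n)

lemma U_sum {c : ℝ} (f : ℕ → ℂ → ℂ) (hf : ∀ k, Good c (f k)) (N : ℕ) :
    U c (fun ξ => ∑ k ∈ Finset.range N, f k ξ) = ∑ k ∈ Finset.range N, U c (f k) := by
  induction N with
  | zero =>
    simp only [Finset.range_zero, Finset.sum_empty]
    unfold U
    simp
  | succ n ih =>
    simp only [Finset.sum_range_succ]
    rw [U_add (Good_sum f hf n) (hf n), ih]

/-- Norm bound for the contour integral. -/
lemma U_norm_le {c : ℝ} {f : ℂ → ℂ} {B : ℝ} (_hB : 0 ≤ B)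
    (hup : ∀ x : ℝ, c < x → ‖f (x + Real.pi * I)‖ ≤ B * E x 0)
    (hdown : ∀ x : ℝ, c < x → ‖f (x - Real.pi * I)‖ ≤ B * E x 0)
    (hvert : ∀ y : ℝ, ‖f (c + y * I)‖ ≤ B * Real.exp (Real.exp c)) :
    ‖U c f‖ ≤ B * (2 * (∫ x in Ioi c, E x 0) + 2 * Real.pi * Real.exp (Real.exp c)) := by
  have pi_pos := Real.pi_pos
  unfold U
  have h1 : ‖∫ x in Ioi c, (f (x + Real.pi * I) - f (x - Real.pi * I))‖ ≤
      ∫ x in Ioi c, 2 * B * E x 0 := by
    apply norm_integral_le_of_norm_le
    · exact (E_intOn 0 c).const_mul _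
    · filter_upwards [self_mem_ae_restrict measurableSet_Ioi] with x hx
      calc ‖f (x + Real.pi * I) - f (x - Real.pi * I)‖
          ≤ ‖f (x + Real.pi * I)‖ + ‖f (x - Real.pi * I)‖ := norm_sub_le _ _
        _ ≤ B * E x 0 + B * E x 0 := add_le_add (hup x hx) (hdown x hx)
        _ = 2 * B * E x 0 := by ring
  have h2 : ‖∫ y in (-Real.pi)..Real.pi, f (c + y * I)‖ ≤
      B * Real.exp (Real.exp c) * |Real.pi - (-Real.pi)| :=
    intervalIntegral.norm_integral_le_of_norm_le_const fun y _ => hvert y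
  rw [integral_const_mul] at h1
  have h3 : |Real.pi - (-Real.pi)| = 2 * Real.pi := by
    rw [sub_neg_eq_add, abs_of_pos (by linarith)]; ring
  rw [h3] at h2
  calc ‖(∫ x in Ioi c, (f (x + Real.pi * I) - f (x - Real.pi * I))) +
      I * ∫ y in (-Real.pi)..Real.pi, f (c + y * I)‖
      ≤ ‖∫ x in Ioi c, (f (x + Real.pi * I) - f (x - Real.pi * I))‖ +
        ‖I * ∫ y in (-Real.pi)..Real.pi, f (c + y * I)‖ := norm_add_le _ _
    _ ≤ 2 * B * (∫ x in Ioi c, E x 0) + B * Real.exp (Real.exp c) * (2 * Real.pi) := by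
        rw [norm_mul, Complex.norm_I, one_mul]
        exact add_le_add h1 h2
    _ = _ := by ring

/-- `m ξ = e^{aξ} / (e^{aξ} - i t)`. -/
noncomputable def m (a t : ℝ) (ξ : ℂ) : ℂ := exp (a * ξ) / (exp (a * ξ) - t * I)

noncomputable def Phi (a t : ℝ) (ξ : ℂ) : ℂ := exp (exp ξ) * m a t ξ

lemma norm_exp_a (a : ℝ) (ξ : ℂ) : ‖exp (a * ξ)‖ = Real.exp (a * ξ.re) := by
  rw [Complex.norm_exp]; simp

lemma norm_tI (t : ℝ) (ht : 0 < t) : ‖(t:ℂ) * I‖ = t := by
  simp [abs_of_pos ht]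

lemma m_norm_le {a t c : ℝ} (ha : 0 < a) (ht : 0 < t) (hc : t < Real.exp (a * c)) {ξ : ℂ}
    (hξ : c ≤ ξ.re) : ‖m a t ξ‖ ≤ (1 - t * Real.exp (-(a * c)))⁻¹ := by
  have hρ : t * Real.exp (-(a * c)) < 1 := by
    rw [Real.exp_neg, ← div_eq_mul_inv, div_lt_one (Real.exp_pos _)]; exact hc
  unfold m
  have hge : Real.exp (a * c) ≤ Real.exp (a * ξ.re) :=
    Real.exp_le_exp.mpr (mul_le_mul_of_nonneg_left hξ ha.le)
  have h1 : Real.exp (a * ξ.re) - t ≤ ‖exp (a * ξ) - t * I‖ := by
    have := norm_sub_norm_le (exp (a * ξ)) ((t:ℂ) * I)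
    rwa [norm_exp_a, norm_tI t ht] at this
  have hpos : 0 < Real.exp (a * ξ.re) - t := by linarith
  rw [norm_div, norm_exp_a]
  calc Real.exp (a * ξ.re) / ‖exp (a * ξ) - t * I‖
      ≤ Real.exp (a * ξ.re) / (Real.exp (a * ξ.re) - t) := by
        apply div_le_div_of_nonneg_left (Real.exp_pos _).le hpos h1
    _ = (1 - t * Real.exp (-(a * ξ.re)))⁻¹ := by
        rw [Real.exp_neg]
        field_simp
    _ ≤ (1 - t * Real.exp (-(a * c)))⁻¹ := by
        apply inv_anti₀ (by linarith)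
        have : Real.exp (-(a * ξ.re)) ≤ Real.exp (-(a * c)) :=
          Real.exp_le_exp.mpr (by nlinarith)
        nlinarith

lemma den_ne {a t c : ℝ} (ha : 0 < a) (ht : 0 < t) (hc : t < Real.exp (a * c)) {ξ : ℂ}
    (hξ : c ≤ ξ.re) : exp (a * ξ) - t * I ≠ 0 := by
  have hge : Real.exp (a * c) ≤ Real.exp (a * ξ.re) :=
    Real.exp_le_exp.mpr (mul_le_mul_of_nonneg_left hξ ha.le)
  have h1 : Real.exp (a * ξ.re) - t ≤ ‖exp (a * ξ) - t * I‖ := by
    have := norm_sub_norm_le (exp (a * ξ)) ((t:ℂ) * I)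
    rwa [norm_exp_a, norm_tI t ht] at this
  intro h0
  rw [h0, norm_zero] at h1
  linarith

lemma norm_expexp_up (x : ℝ) : ‖exp (exp ((x:ℂ) + Real.pi * I))‖ = E x 0 := by
  rw [exp_add_pi, Complex.norm_exp, E, ← Complex.ofReal_neg, Complex.ofReal_re]
  simp

lemma norm_expexp_down (x : ℝ) : ‖exp (exp ((x:ℂ) - Real.pi * I))‖ = E x 0 := by
  rw [exp_sub_pi, Complex.norm_exp, E, ← Complex.ofReal_neg, Complex.ofReal_re]
  simp

lemma norm_expexp_le (ξ : ℂ) : ‖exp (exp ξ)‖ ≤ Real.exp (Real.exp ξ.re) := by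
  rw [Complex.norm_exp]
  apply Real.exp_le_exp.mpr
  rw [← Complex.norm_exp]
  exact Complex.re_le_norm _

/-- A function of the form `exp(exp ξ) * q ξ` with `q` bounded and continuous on `Re ξ ≥ c` is good. -/
lemma Good_of_bdd {c B : ℝ} {q : ℂ → ℂ}
    (hq : ContinuousOn q {ξ | c ≤ ξ.re}) (hb : ∀ ξ : ℂ, c ≤ ξ.re → ‖q ξ‖ ≤ B) :
    Good c (fun ξ => exp (exp ξ) * q ξ) := by
  have hcont : ContinuousOn (fun ξ => exp (exp ξ) * q ξ) {ξ | c ≤ ξ.re} := by
    apply ContinuousOn.mul _ hq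
    fun_prop
  refine ⟨?_, ?_, ?_⟩
  · have hm : AEStronglyMeasurable (fun x : ℝ => exp (exp ((x:ℂ) + Real.pi * I)) *
        q (x + Real.pi * I)) (volume.restrict (Ioi c)) := by
      apply ContinuousOn.aestronglyMeasurable _ measurableSet_Ioi
      apply hcont.comp (by fun_prop)
      intro x hx
      have : c < x := hx
      simpa using this.le
    refine Integrable.mono' ((E_intOn 0 c).const_mul B) hm ?_
    filter_upwards [self_mem_ae_restrict measurableSet_Ioi] with x hx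
    rw [norm_mul, norm_expexp_up, mul_comm]
    apply mul_le_mul_of_nonneg_right _ (E_pos x 0).le
    apply hb
    have : c < x := hx
    simpa using this.le
  · have hm : AEStronglyMeasurable (fun x : ℝ => exp (exp ((x:ℂ) - Real.pi * I)) *
        q (x - Real.pi * I)) (volume.restrict (Ioi c)) := by
      apply ContinuousOn.aestronglyMeasurable _ measurableSet_Ioi
      apply hcont.comp (by fun_prop)
      intro x hx
      have : c < x := hx
      simpa using this.le
    refine Integrable.mono' ((E_intOn 0 c).const_mul B) hm ?_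
    filter_upwards [self_mem_ae_restrict measurableSet_Ioi] with x hx
    rw [norm_mul, norm_expexp_down, mul_comm]
    apply mul_le_mul_of_nonneg_right _ (E_pos x 0).le
    apply hb
    have : c < x := hx
    simpa using this.le
  · apply ContinuousOn.intervalIntegrable
    apply hcont.comp (by fun_prop)
    intro y _
    simp

lemma U_norm_le' {c B : ℝ} {q : ℂ → ℂ} (hB : 0 ≤ B) (hb : ∀ ξ : ℂ, c ≤ ξ.re → ‖q ξ‖ ≤ B) :
    ‖U c (fun ξ => exp (exp ξ) * q ξ)‖ ≤
      B * (2 * (∫ x in Ioi c, E x 0) + 2 * Real.pi * Real.exp (Real.exp c)) := by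
  apply U_norm_le hB
  · intro x hx
    rw [norm_mul, norm_expexp_up, mul_comm]
    apply mul_le_mul_of_nonneg_right _ (E_pos x 0).le
    apply hb
    simpa using hx.le
  · intro x hx
    rw [norm_mul, norm_expexp_down, mul_comm]
    apply mul_le_mul_of_nonneg_right _ (E_pos x 0).le
    apply hb
    simpa using hx.le
  · intro y
    rw [norm_mul, mul_comm]
    apply mul_le_mul (hb _ (by simp)) _ (norm_nonneg _) hB
    have := norm_expexp_le ((c:ℂ) + y * I)
    simpa using this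

lemma m_continuousOn {a t c : ℝ} (ha : 0 < a) (ht : 0 < t) (hc : t < Real.exp (a * c)) :
    ContinuousOn (m a t) {ξ | c ≤ ξ.re} := by
  unfold m
  apply ContinuousOn.div (by fun_prop) (by fun_prop)
  intro ξ hξ
  exact den_ne ha ht hc hξ

/-- **Step 1**: for `c` large the contour integral of `Phi` is the Mittag-Leffler series. -/
theorem U_Phi {a t c : ℝ} (ha : 2 / 3 ≤ a) (ht : 0 < t) (ht2 : t ≤ 11 / 2)
    (hc : t < Real.exp (a * c)) : U c (Phi a t) = 2 * Real.pi * I * F a t := by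
  have ha0 : 0 < a := by linarith
  set ρ : ℝ := t * Real.exp (-(a * c)) with hρdef
  have hρ0 : 0 ≤ ρ := by positivity
  have hρ1 : ρ < 1 := by
    rw [hρdef, Real.exp_neg, ← div_eq_mul_inv, div_lt_one (Real.exp_pos _)]; exact hc
  -- partial sum decomposition
  set f : ℕ → ℂ → ℂ := fun k ξ => ((t:ℂ) * I) ^ k * h (a * k + 1) ξ with hf
  have hfg : ∀ k, Good c (f k) := fun k => (Good_h c (a * k + 1)).const_mul _
  have hUf : ∀ k, U c (f k) = 2 * Real.pi * I * (((t:ℂ) * I) ^ k / (Real.Gamma (a * k + 1) : ℂ)) := by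
    intro k
    rw [hf]
    simp only
    rw [U_const_mul]
    obtain ⟨n, hn⟩ := exists_nat_ge (a * k + 1)
    have hk : (0:ℝ) ≤ k := Nat.cast_nonneg k
    rw [U_h c n (a * k + 1) (by positivity) (by linarith)]
    ring
  set q : ℕ → ℂ → ℂ := fun N ξ => ((t:ℂ) * I * exp (-(a * ξ))) ^ N * m a t ξ with hq
  have hdec : ∀ N : ℕ, ∀ ξ : ℂ, exp (a * ξ) - t * I ≠ 0 →
      Phi a t ξ = (∑ k ∈ Finset.range N, f k ξ) + exp (exp ξ) * q N ξ := by
    intro N ξ hξ
    have hh : ∀ k : ℕ, f k ξ = exp (exp ξ) * ((t:ℂ) * I * exp (-(a * ξ))) ^ k := by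
      intro k
      rw [hf]
      simp only
      rw [mul_pow ((t:ℂ) * I) (exp (-(a * ξ))), ← Complex.exp_nat_mul, h]
      have : exp ξ + (1 - ((a * k + 1 : ℝ) : ℂ)) * ξ = exp ξ + (k:ℂ) * -(a * ξ) := by
        push_cast; ring
      rw [this, Complex.exp_add]
      ring
    simp only [hh]
    rw [← Finset.mul_sum, hq, Phi]
    simp only
    have hex : exp (-(a * ξ)) = (exp (a * ξ))⁻¹ := Complex.exp_neg _
    have hne : exp (a * ξ) ≠ 0 := Complex.exp_ne_zero _
    have hz1 : (t:ℂ) * I * exp (-(a * ξ)) ≠ 1 := by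
      intro h1
      apply hξ
      rw [hex] at h1
      field_simp at h1
      rw [h1]; ring
    rw [geom_sum_eq hz1]
    have hz2 : (t:ℂ) * I * exp (-(a * ξ)) - 1 ≠ 0 := sub_ne_zero.mpr hz1
    have hm : m a t ξ = -1 / ((t:ℂ) * I * exp (-(a * ξ)) - 1) := by
      rw [m, hex]
      rw [div_eq_div_iff hξ (by rw [hex] at hz2; exact hz2)]
      field_simp
      ring
    rw [hm]
    field_simp
    ring
  have hqb : ∀ N : ℕ, ∀ ξ : ℂ, c ≤ ξ.re → ‖q N ξ‖ ≤ ρ ^ N * (1 - ρ)⁻¹ := by
    intro N ξ hξ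
    rw [hq]
    simp only
    rw [norm_mul, norm_pow, norm_mul, norm_tI t ht]
    have h1 : ‖exp (-((a:ℂ) * ξ))‖ = Real.exp (-(a * ξ.re)) := by
      rw [Complex.norm_exp]; simp
    rw [h1]
    apply mul_le_mul _ (m_norm_le ha0 ht hc hξ) (norm_nonneg _) (by positivity)
    apply pow_le_pow_left₀ (by positivity)
    apply mul_le_mul_of_nonneg_left _ ht.le
    apply Real.exp_le_exp.mpr
    nlinarith
  have hqc : ∀ N : ℕ, ContinuousOn (q N) {ξ | c ≤ ξ.re} := by
    intro N
    rw [hq]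
    apply ContinuousOn.mul (by fun_prop) (m_continuousOn ha0 ht hc)
  -- U of the decomposition
  have hU : ∀ N : ℕ, U c (Phi a t) = (∑ k ∈ Finset.range N, U c (f k)) +
      U c (fun ξ => exp (exp ξ) * q N ξ) := by
    intro N
    rw [← U_sum f hfg N, ← U_add (Good_sum f hfg N) (Good_of_bdd (hqc N) (hqb N))]
    unfold U
    congr 1
    · apply setIntegral_congr_fun measurableSet_Ioi
      intro x hx
      have hx' : c < x := hx
      simp only
      rw [hdec N _ (den_ne ha0 ht hc (by simpa using hx'.le)),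
        hdec N (x - Real.pi * I) (den_ne ha0 ht hc (by simpa using hx'.le))]
    · congr 1
      apply intervalIntegral.integral_congr
      intro y _
      simp only
      rw [hdec N _ (den_ne ha0 ht hc (by simp))]
  -- limits
  have hlim1 : Tendsto (fun N => ∑ k ∈ Finset.range N, U c (f k)) atTop
      (𝓝 (2 * Real.pi * I * F a t)) := by
    have hs := (summable_term a t ha (by rw [abs_of_pos ht]; exact ht2)).hasSum.mul_left
      (2 * Real.pi * I)
    have := hs.tendsto_sum_nat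
    simp only [hUf]
    exact this
  have hlim2 : Tendsto (fun N => U c (fun ξ => exp (exp ξ) * q N ξ)) atTop (𝓝 0) := by
    rw [tendsto_zero_iff_norm_tendsto_zero]
    have hbound : ∀ N : ℕ, ‖U c (fun ξ => exp (exp ξ) * q N ξ)‖ ≤
        (ρ ^ N * (1 - ρ)⁻¹) *
          (2 * (∫ x in Ioi c, E x 0) + 2 * Real.pi * Real.exp (Real.exp c)) := by
      intro N
      apply U_norm_le' _ (hqb N)
      have : 0 < 1 - ρ := by linarith
      positivity
    refine squeeze_zero (fun N => norm_nonneg _) hbound ?_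
    have h1 := ((tendsto_pow_atTop_nhds_zero_of_lt_one hρ0 hρ1).mul_const ((1 - ρ)⁻¹)).mul_const
      (2 * (∫ x in Ioi c, E x 0) + 2 * Real.pi * Real.exp (Real.exp c))
    simpa using h1
  have hlim3 := hlim1.add hlim2
  rw [add_zero] at hlim3
  refine tendsto_nhds_unique ?_ hlim3
  have : (fun N => (∑ k ∈ Finset.range N, U c (f k)) + U c (fun ξ => exp (exp ξ) * q N ξ)) =
      fun _ => U c (Phi a t) := by
    ext N; exact (hU N).symm
  rw [this]
  exact tendsto_const_nhds

end Pool.Agent.Work.MP_ff8adc_an
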