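import Pool.Agent.Work.MP_ff8adc_an.RepA

set_option autoImplicit false

open Set Complex MeasureTheory Filter Topology

namespace Pool.Agent.Work.MP_ff8adc_an

/-- the pole in the logarithmic coordinate -/
noncomputable def xi0 (a t : ℝ) : ℂ := ((Real.log t : ℂ) + (Real.pi / 2 : ℝ) * I) / a

noncomputable def g (s0 : ℂ) (ξ : ℂ) : ℂ := exp (exp ξ) * (exp ξ / (exp ξ - s0))

lemma xi0_re (a t : ℝ) : (xi0 a t).re = Real.log t / a := by
  unfold xi0
  rw [Complex.div_ofReal_re]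
  simp

lemma xi0_im (a t : ℝ) : (xi0 a t).im = Real.pi / (2 * a) := by
  unfold xi0
  rw [Complex.div_ofReal_im]
  simp
  field_simp

lemma exp_a_xi0 {a t : ℝ} (ha : 0 < a) (ht : 0 < t) : exp (a * xi0 a t) = t * I := by
  unfold xi0
  have : (a:ℂ) ≠ 0 := by exact_mod_cast ha.ne'
  rw [mul_div_cancel₀ _ this, Complex.exp_add, ← Complex.ofReal_exp, Real.exp_log ht]
  have h2 : (((Real.pi / 2 : ℝ)) : ℂ) * I = Real.pi / 2 * I := by push_cast; ring
  rw [h2, Complex.exp_pi_div_two_mul_I]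

/-- **Step 2**: the model function. -/
lemma U_g {c : ℝ} {s0 : ℂ} (hs : ‖s0‖ < Real.exp c) : U c (g s0) = 2 * Real.pi * I * exp s0 := by
  have pi_pos := Real.pi_pos
  have hhor : ∀ x : ℝ, g s0 (x + Real.pi * I) - g s0 (x - Real.pi * I) = 0 := by
    intro x
    unfold g
    rw [exp_add_pi, exp_sub_pi, sub_self]
  have hcirc := Complex.circleIntegral_sub_inv_smul_of_differentiable_on_off_countable
    (R := Real.exp c) (c := 0) (w := s0) (f := exp) (s := ∅) countable_empty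
    (by simpa using hs) Complex.continuous_exp.continuousOn
    (fun x _ => Complex.differentiable_exp x)
  unfold U
  simp only [hhor, integral_zero, zero_add]
  rw [smul_eq_mul] at hcirc
  rw [← hcirc]
  unfold circleIntegral
  -- periodicity
  set f : ℝ → ℂ := fun θ => deriv (circleMap 0 (Real.exp c)) θ •
    ((circleMap 0 (Real.exp c) θ - s0)⁻¹ • exp (circleMap 0 (Real.exp c) θ)) with hf
  have hper : Function.Periodic f (2 * Real.pi) := by
    intro θ
    rw [hf]
    simp only [deriv_circleMap]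
    rw [periodic_circleMap]
  have h1 := hper.intervalIntegral_add_eq (-Real.pi) 0
  rw [zero_add, show -Real.pi + 2 * Real.pi = Real.pi by ring] at h1
  rw [← h1, ← intervalIntegral.integral_const_mul]
  apply intervalIntegral.integral_congr
  intro y _
  simp only [hf, deriv_circleMap, smul_eq_mul, g]
  have h2 : circleMap 0 (Real.exp c) y = exp (c + y * I) := by
    rw [circleMap_zero, Complex.exp_add, Complex.ofReal_exp]
  rw [h2]
  ring

lemma g_good {c : ℝ} {s0 : ℂ} (hs : ‖s0‖ < Real.exp c) : Good c (g s0) := by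
  unfold g
  have hden : ∀ ξ : ℂ, c ≤ ξ.re → Real.exp ξ.re - ‖s0‖ ≤ ‖exp ξ - s0‖ := by
    intro ξ _
    have := norm_sub_norm_le (exp ξ) s0
    rwa [Complex.norm_exp] at this
  apply Good_of_bdd (B := Real.exp c / (Real.exp c - ‖s0‖))
  · apply ContinuousOn.div (by fun_prop) (by fun_prop)
    intro ξ hξ h0
    have h1 := hden ξ hξ
    rw [h0, norm_zero] at h1
    have : Real.exp c ≤ Real.exp ξ.re := Real.exp_le_exp.mpr hξ
    linarith
  · intro ξ hξ
    have h1 := hden ξ hξ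
    have h2 : Real.exp c ≤ Real.exp ξ.re := Real.exp_le_exp.mpr hξ
    have h3 : 0 < Real.exp c - ‖s0‖ := by linarith
    have h4 : 0 < Real.exp ξ.re - ‖s0‖ := by linarith
    rw [norm_div, Complex.norm_exp]
    calc Real.exp ξ.re / ‖exp ξ - s0‖ ≤ Real.exp ξ.re / (Real.exp ξ.re - ‖s0‖) :=
          div_le_div_of_nonneg_left (Real.exp_pos _).le h4 h1
      _ ≤ Real.exp c / (Real.exp c - ‖s0‖) := by
          rw [div_le_div_iff₀ h4 h3]
          nlinarith [norm_nonneg s0]

lemma dslope_diff {f : ℂ → ℂ} (hf : Differentiable ℂ f) (c : ℂ) :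
    Differentiable ℂ (dslope f c) := by
  have := (Complex.differentiableOn_dslope (f := f) (s := univ) (c := c) univ_mem).mpr
    hf.differentiableOn
  exact differentiableOn_univ.mp this

/-- zeros in the closed strip of `e^{aξ} - it`. -/
lemma zero_a {a t : ℝ} (ha : 1 / 2 < a) (ha1 : a < 1) (ht : 0 < t) {ξ : ℂ}
    (h1 : -Real.pi ≤ ξ.im) (h2 : ξ.im ≤ Real.pi) (h0 : exp (a * ξ) = t * I) : ξ = xi0 a t := by
  have pi_pos := Real.pi_pos
  have ha0 : 0 < a := by linarith
  rw [← exp_a_xi0 ha0 ht] at h0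
  obtain ⟨n, hn⟩ := Complex.exp_eq_exp_iff_exists_int.mp h0
  have him := congrArg Complex.im hn
  have h3 : ((a:ℂ) * ξ).im = a * ξ.im := by simp
  have h4 : ((a:ℂ) * xi0 a t).im = a * (xi0 a t).im := by simp
  have h5 : ((n:ℂ) * (2 * Real.pi * I)).im = n * (2 * Real.pi) := by simp
  rw [Complex.add_im, h3, h4, h5, xi0_im] at him
  have h6 : a * (Real.pi / (2 * a)) = Real.pi / 2 := by field_simp
  rw [h6] at him
  have hn0 : n = 0 := by
    have hlt : (n:ℝ) < 1 := by
      by_contra hcon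
      push Not at hcon
      nlinarith
    have hgt : (-1:ℝ) < n := by
      by_contra hcon
      push Not at hcon
      nlinarith
    have h7 : n < 1 := by exact_mod_cast hlt
    have h8 : -1 < n := by exact_mod_cast hgt
    omega
  rw [hn0] at hn
  simp only [Int.cast_zero, zero_mul, add_zero] at hn
  have : (a:ℂ) ≠ 0 := by exact_mod_cast ha0.ne'
  exact mul_left_cancel₀ this hn

lemma xi0_im_bounds {a : ℝ} (t : ℝ) (ha : 1 / 2 < a) (ha1 : a < 1) :
    Real.pi / 2 < (xi0 a t).im ∧ (xi0 a t).im < Real.pi := by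
  have pi_pos := Real.pi_pos
  rw [xi0_im]
  constructor
  · rw [lt_div_iff₀ (by linarith)]; nlinarith
  · rw [div_lt_iff₀ (by linarith)]; nlinarith

lemma zero_s {a t : ℝ} (ha : 1 / 2 < a) (ha1 : a < 1) {ξ : ℂ}
    (h1 : -Real.pi ≤ ξ.im) (h2 : ξ.im ≤ Real.pi) (h0 : exp ξ = exp (xi0 a t)) :
    ξ = xi0 a t := by
  have pi_pos := Real.pi_pos
  obtain ⟨n, hn⟩ := Complex.exp_eq_exp_iff_exists_int.mp h0
  have him := congrArg Complex.im hn
  have h5 : ((n:ℂ) * (2 * Real.pi * I)).im = n * (2 * Real.pi) := by simp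
  rw [Complex.add_im, h5] at him
  have hb := xi0_im_bounds t ha ha1
  have hn0 : n = 0 := by
    have hlt : (n:ℝ) < 1 := by
      by_contra hcon
      push Not at hcon
      nlinarith
    have hgt : (-1:ℝ) < n := by
      by_contra hcon
      push Not at hcon
      nlinarith
    have h7 : n < 1 := by exact_mod_cast hlt
    have h8 : -1 < n := by exact_mod_cast hgt
    omega
  rw [hn0] at hn
  simpa using hn

/-- The difference of `Phi` and the model function, with the singularity removed. -/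
theorem exists_removed {a t : ℝ} (ha : 1 / 2 < a) (ha1 : a < 1) (ht : 0 < t) :
    ∃ D : ℂ → ℂ, (∀ ξ : ℂ, -Real.pi ≤ ξ.im → ξ.im ≤ Real.pi → DifferentiableAt ℂ D ξ) ∧
      (∀ ξ : ℂ, -Real.pi ≤ ξ.im → ξ.im ≤ Real.pi → ξ ≠ xi0 a t →
        D ξ = Phi a t ξ - (1 / a) * g (exp (xi0 a t)) ξ) := by
  have ha0 : 0 < a := by linarith
  have hac : (a:ℂ) ≠ 0 := by exact_mod_cast ha0.ne'
  set x0 := xi0 a t with hx0
  set s0 := exp x0 with hs0
  set A : ℂ → ℂ := fun ξ => exp (a * ξ) - t * I with hA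
  set B : ℂ → ℂ := fun ξ => exp ξ - s0 with hB
  set n : ℂ → ℂ := fun ξ => a * exp (a * ξ) * B ξ - exp ξ * A ξ with hn
  have hAd : Differentiable ℂ A := by rw [hA]; fun_prop
  have hBd : Differentiable ℂ B := by rw [hB]; fun_prop
  have hnd : Differentiable ℂ n := by rw [hn]; fun_prop
  have hA0 : A x0 = 0 := by
    rw [hA]; simp only; rw [hx0, exp_a_xi0 ha0 ht, sub_self]
  have hB0 : B x0 = 0 := by rw [hB]; simp [hs0]
  have hn0 : n x0 = 0 := by rw [hn]; simp only; rw [hA0, hB0]; ring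
  have hA' : HasDerivAt A (a * (t * I)) x0 := by
    have h1 : HasDerivAt (fun ξ : ℂ => (a:ℂ) * ξ) (a * 1) x0 := (hasDerivAt_id x0).const_mul _
    have h2 := (h1.cexp).sub_const ((t:ℂ) * I)
    have h3 : exp (a * x0) * (a * 1) = a * (t * I) := by
      rw [hx0, exp_a_xi0 ha0 ht]; ring
    rw [← h3]
    exact h2
  have hB' : HasDerivAt B s0 x0 := (Complex.hasDerivAt_exp x0).sub_const s0
  have hn' : HasDerivAt n 0 x0 := by
    have h1 : HasDerivAt (fun ξ : ℂ => (a:ℂ) * ξ) (a * 1) x0 := (hasDerivAt_id x0).const_mul _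
    have h2 : HasDerivAt (fun ξ : ℂ => (a:ℂ) * exp (a * ξ)) (a * (exp (a * x0) * (a * 1))) x0 :=
      h1.cexp.const_mul _
    have h3 := (h2.mul hB').sub ((Complex.hasDerivAt_exp x0).mul hA')
    have h4 : a * (exp (a * x0) * (a * 1)) * B x0 + a * exp (a * x0) * s0 -
        (exp x0 * A x0 + exp x0 * (a * (t * I))) = 0 := by
      rw [hA0, hB0, ← hs0, hx0, exp_a_xi0 ha0 ht]; ring
    rw [← h4]
    exact h3
  set n1 := dslope n x0 with hn1
  set n2 := dslope n1 x0 with hn2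
  set A1 := dslope A x0 with hA1
  set B1 := dslope B x0 with hB1
  have hn1d : Differentiable ℂ n1 := dslope_diff hnd x0
  have hn2d : Differentiable ℂ n2 := dslope_diff hn1d x0
  have hA1d : Differentiable ℂ A1 := dslope_diff hAd x0
  have hB1d : Differentiable ℂ B1 := dslope_diff hBd x0
  have hn10 : n1 x0 = 0 := by rw [hn1, dslope_same]; exact hn'.deriv
  have hAe : ∀ ξ, A ξ = (ξ - x0) * A1 ξ := by
    intro ξ
    have := sub_smul_dslope A x0 ξ
    rw [smul_eq_mul, hA0, sub_zero] at this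
    exact this.symm
  have hBe : ∀ ξ, B ξ = (ξ - x0) * B1 ξ := by
    intro ξ
    have := sub_smul_dslope B x0 ξ
    rw [smul_eq_mul, hB0, sub_zero] at this
    exact this.symm
  have hne : ∀ ξ, n ξ = (ξ - x0) * ((ξ - x0) * n2 ξ) := by
    intro ξ
    have h1 := sub_smul_dslope n x0 ξ
    have h2 := sub_smul_dslope n1 x0 ξ
    rw [smul_eq_mul, hn0, sub_zero] at h1
    rw [smul_eq_mul, hn10, sub_zero] at h2
    rw [← h1, ← hn2] at *
    rw [h2]
  have hA1ne : ∀ ξ : ℂ, -Real.pi ≤ ξ.im → ξ.im ≤ Real.pi → A1 ξ ≠ 0 := by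
    intro ξ h1 h2
    by_cases hξ : ξ = x0
    · rw [hξ, hA1, dslope_same, hA'.deriv]
      have : (t:ℂ) ≠ 0 := by exact_mod_cast ht.ne'
      exact mul_ne_zero hac (mul_ne_zero this I_ne_zero)
    · intro h3
      apply hξ
      apply zero_a ha ha1 ht h1 h2
      have h4 := hAe ξ
      rw [h3, mul_zero] at h4
      exact sub_eq_zero.mp h4
  have hB1ne : ∀ ξ : ℂ, -Real.pi ≤ ξ.im → ξ.im ≤ Real.pi → B1 ξ ≠ 0 := by
    intro ξ h1 h2
    by_cases hξ : ξ = x0
    · rw [hξ, hB1, dslope_same, hB'.deriv]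
      exact Complex.exp_ne_zero _
    · intro h3
      apply hξ
      apply zero_s ha ha1 h1 h2
      have h4 := hBe ξ
      rw [h3, mul_zero] at h4
      exact sub_eq_zero.mp h4
  refine ⟨fun ξ => exp (exp ξ) * (n2 ξ / (a * A1 ξ * B1 ξ)), ?_, ?_⟩
  · intro ξ h1 h2
    have hd := mul_ne_zero (mul_ne_zero hac (hA1ne ξ h1 h2)) (hB1ne ξ h1 h2)
    apply DifferentiableAt.mul (by fun_prop)
    apply DifferentiableAt.div (hn2d ξ) _ hd
    exact ((differentiableAt_const _).mul (hA1d ξ)).mul (hB1d ξ)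
  · intro ξ h1 h2 hξ
    have hA1n := hA1ne ξ h1 h2
    have hB1n := hB1ne ξ h1 h2
    have hsub : ξ - x0 ≠ 0 := sub_ne_zero.mpr hξ
    have hAn : A ξ ≠ 0 := by rw [hAe]; exact mul_ne_zero hsub hA1n
    have hBn : B ξ ≠ 0 := by rw [hBe]; exact mul_ne_zero hsub hB1n
    have e1 : n2 ξ / (a * A1 ξ * B1 ξ) = n ξ / (a * A ξ * B ξ) := by
      rw [hne, hAe, hBe]
      field_simp
    simp only
    rw [e1]
    have e2 : Phi a t ξ = exp (exp ξ) * (exp (a * ξ) / A ξ) := rfl
    have e3 : g s0 ξ = exp (exp ξ) * (exp ξ / B ξ) := rfl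
    rw [e2, e3]
    have e4 : n ξ = a * exp (a * ξ) * B ξ - exp ξ * A ξ := rfl
    rw [e4]
    field_simp

end Pool.Agent.Work.MP_ff8adc_an
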