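import Pool.Agent.Work.MP_ff8adc_an.RepB

set_option autoImplicit false

open Set Complex MeasureTheory Filter Topology

namespace Pool.Agent.Work.MP_ff8adc_an

lemma exp_a_up (a x : ℝ) : exp ((a:ℂ) * (x + Real.pi * I)) =
    (Real.exp (a * x) : ℂ) * exp (Real.pi * a * I) := by
  rw [Complex.ofReal_exp, ← Complex.exp_add]; congr 1; push_cast; ring

lemma exp_a_down (a x : ℝ) : exp ((a:ℂ) * (x - Real.pi * I)) =
    (Real.exp (a * x) : ℂ) * exp (-(Real.pi * a * I)) := by
  rw [Complex.ofReal_exp, ← Complex.exp_add]; congr 1; push_cast; ring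

lemma exp_pi_a (a : ℝ) : exp (Real.pi * a * I) = ⟨Real.cos (Real.pi * a), Real.sin (Real.pi * a)⟩ := by
  apply Complex.ext
  · have : (Real.pi : ℂ) * a * I = ((Real.pi * a : ℝ) : ℂ) * I := by push_cast; ring
    rw [this, Complex.exp_ofReal_mul_I_re]
  · have : (Real.pi : ℂ) * a * I = ((Real.pi * a : ℝ) : ℂ) * I := by push_cast; ring
    rw [this, Complex.exp_ofReal_mul_I_im]

lemma exp_neg_pi_a (a : ℝ) :
    exp (-(Real.pi * a * I)) = ⟨Real.cos (Real.pi * a), -Real.sin (Real.pi * a)⟩ := by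
  have : -((Real.pi : ℂ) * a * I) = ((-(Real.pi * a) : ℝ) : ℂ) * I := by push_cast; ring
  rw [this]
  apply Complex.ext
  · rw [Complex.exp_ofReal_mul_I_re, Real.cos_neg]
  · rw [Complex.exp_ofReal_mul_I_im, Real.sin_neg]

/-- lower bound for the denominator on the upper line -/
lemma den_up {a t : ℝ} (y : ℝ) (ht : 0 < t) :
    t * |Real.cos (Real.pi * a)| ≤ ‖(y:ℂ) * exp (Real.pi * a * I) - t * I‖ := by
  have h1 : ‖(y:ℂ) * exp (Real.pi * a * I) - t * I‖ ^ 2 =
      (y - t * Real.sin (Real.pi * a)) ^ 2 + (t * Real.cos (Real.pi * a)) ^ 2 := by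
    rw [← Complex.normSq_eq_norm_sq, exp_pi_a, Complex.normSq_apply]
    simp
    linear_combination (y ^ 2 - t ^ 2) * Real.sin_sq_add_cos_sq (Real.pi * a)
  have h2 : t * |Real.cos (Real.pi * a)| = |t * Real.cos (Real.pi * a)| := by
    rw [abs_mul, abs_of_pos ht]
  rw [h2]
  apply abs_le_of_sq_le_sq _ (norm_nonneg _)
  rw [h1]
  nlinarith [sq_nonneg (y - t * Real.sin (Real.pi * a))]

lemma den_down {a t y : ℝ} (ht : 0 < t) (hy : 0 ≤ y) (hs : 0 ≤ Real.sin (Real.pi * a)) :
    t ≤ ‖(y:ℂ) * exp (-(Real.pi * a * I)) - t * I‖ := by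
  have h1 : ‖(y:ℂ) * exp (-(Real.pi * a * I)) - t * I‖ ^ 2 =
      y ^ 2 + t ^ 2 + 2 * y * t * Real.sin (Real.pi * a) := by
    rw [← Complex.normSq_eq_norm_sq, exp_neg_pi_a, Complex.normSq_apply]
    simp
    linear_combination (y ^ 2) * Real.sin_sq_add_cos_sq (Real.pi * a)
  have h2 : t ^ 2 ≤ ‖(y:ℂ) * exp (-(Real.pi * a * I)) - t * I‖ ^ 2 := by
    rw [h1]
    have : 0 ≤ 2 * y * t * Real.sin (Real.pi * a) := by positivity
    nlinarith [sq_nonneg y]
  have h3 : |t| ≤ ‖(y:ℂ) * exp (-(Real.pi * a * I)) - t * I‖ :=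
    abs_le_of_sq_le_sq h2 (norm_nonneg _)
  rwa [abs_of_pos ht] at h3

lemma cos_ne {a : ℝ} (ha : 1 / 2 < a) (ha1 : a < 1) : 0 < |Real.cos (Real.pi * a)| := by
  have pi_pos := Real.pi_pos
  apply abs_pos.mpr
  have : Real.cos (Real.pi * a) < 0 := by
    apply Real.cos_neg_of_pi_div_two_lt_of_lt
    · nlinarith
    · nlinarith
  exact this.ne

lemma sin_nonneg' {a : ℝ} (ha : 1 / 2 < a) (ha1 : a < 1) : 0 ≤ Real.sin (Real.pi * a) := by
  have pi_pos := Real.pi_pos
  apply Real.sin_nonneg_of_nonneg_of_le_pi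
  · nlinarith
  · nlinarith

/-- m on the upper/lower lines -/
noncomputable def mUp (a t x : ℝ) : ℂ := m a t (x + Real.pi * I)
noncomputable def mDown (a t x : ℝ) : ℂ := m a t (x - Real.pi * I)

lemma mUp_norm {a t : ℝ} (ha : 1 / 2 < a) (ha1 : a < 1) (ht : 0 < t) (x : ℝ) :
    ‖mUp a t x‖ ≤ Real.exp (a * x) / (t * |Real.cos (Real.pi * a)|) := by
  unfold mUp m
  rw [exp_a_up, norm_div, norm_mul, Complex.norm_real, Real.norm_of_nonneg (Real.exp_pos _).le]
  have h1 : ‖exp ((Real.pi:ℂ) * a * I)‖ = 1 := by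
    have : (Real.pi : ℂ) * a * I = ((Real.pi * a : ℝ) : ℂ) * I := by push_cast; ring
    rw [this, Complex.norm_exp_ofReal_mul_I]
  rw [h1, mul_one]
  apply div_le_div_of_nonneg_left (Real.exp_pos _).le
  · exact mul_pos ht (cos_ne ha ha1)
  · exact den_up _ ht

lemma mDown_norm {a t : ℝ} (ha : 1 / 2 < a) (ha1 : a < 1) (ht : 0 < t) (x : ℝ) :
    ‖mDown a t x‖ ≤ Real.exp (a * x) / t := by
  unfold mDown m
  rw [exp_a_down, norm_div, norm_mul, Complex.norm_real, Real.norm_of_nonneg (Real.exp_pos _).le]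
  have h1 : ‖exp (-((Real.pi:ℂ) * a * I))‖ = 1 := by
    have : -((Real.pi : ℂ) * a * I) = ((-(Real.pi * a) : ℝ) : ℂ) * I := by push_cast; ring
    rw [this, Complex.norm_exp_ofReal_mul_I]
  rw [h1, mul_one]
  apply div_le_div_of_nonneg_left (Real.exp_pos _).le ht
  exact den_down ht (Real.exp_pos _).le (sin_nonneg' ha ha1)

lemma den_up_ne {a t : ℝ} (ha : 1 / 2 < a) (ha1 : a < 1) (ht : 0 < t) (x : ℝ) :
    exp ((a:ℂ) * (x + Real.pi * I)) - t * I ≠ 0 := by
  rw [exp_a_up]
  intro h0
  have := den_up (a := a) (Real.exp (a * x)) ht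
  rw [h0, norm_zero] at this
  have := mul_pos ht (cos_ne ha ha1)
  linarith

lemma den_down_ne {a t : ℝ} (ha : 1 / 2 < a) (ha1 : a < 1) (ht : 0 < t) (x : ℝ) :
    exp ((a:ℂ) * (x - Real.pi * I)) - t * I ≠ 0 := by
  rw [exp_a_down]
  intro h0
  have := den_down (a := a) ht (Real.exp_pos (a * x)).le (sin_nonneg' ha ha1)
  rw [h0, norm_zero] at this
  linarith

lemma mUp_continuous {a t : ℝ} (ha : 1 / 2 < a) (ha1 : a < 1) (ht : 0 < t) :
    Continuous (mUp a t) := by
  unfold mUp m
  apply Continuous.div (by fun_prop) (by fun_prop)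
  exact den_up_ne ha ha1 ht

lemma mDown_continuous {a t : ℝ} (ha : 1 / 2 < a) (ha1 : a < 1) (ht : 0 < t) :
    Continuous (mDown a t) := by
  unfold mDown m
  apply Continuous.div (by fun_prop) (by fun_prop)
  exact den_down_ne ha ha1 ht

lemma E_mul_exp (x b d : ℝ) : E x b * Real.exp (d * x) = E x (b + d) := by
  unfold E; rw [← Real.exp_add]; congr 1; ring

lemma Phi_up (a t x : ℝ) : Phi a t (x + Real.pi * I) = (E x 0 : ℂ) * mUp a t x := by
  unfold Phi mUp
  rw [exp_add_pi]
  congr 1
  unfold E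
  rw [← Complex.ofReal_neg, ← Complex.ofReal_exp]
  simp

lemma Phi_down (a t x : ℝ) : Phi a t (x - Real.pi * I) = (E x 0 : ℂ) * mDown a t x := by
  unfold Phi mDown
  rw [exp_sub_pi]
  congr 1
  unfold E
  rw [← Complex.ofReal_neg, ← Complex.ofReal_exp]
  simp

/-- integrability over the whole line of `E x b * mUp` -/
lemma E_mUp_integrable {a t b : ℝ} (ha : 1 / 2 < a) (ha1 : a < 1) (ht : 0 < t) (hb : 0 < b + a) :
    Integrable (fun x => (E x b : ℂ) * mUp a t x) := by
  have hK := mul_pos ht (cos_ne ha ha1)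
  refine Integrable.mono' (((E_integral hb).1).mul_const (1 / (t * |Real.cos (Real.pi * a)|)))
    ?_ ?_
  · exact ((Complex.continuous_ofReal.comp (E_continuous b)).mul
      (mUp_continuous ha ha1 ht)).aestronglyMeasurable
  · apply Eventually.of_forall
    intro x
    rw [norm_mul, Complex.norm_real, Real.norm_of_nonneg (E_pos x b).le]
    calc E x b * ‖mUp a t x‖ ≤ E x b * (Real.exp (a * x) / (t * |Real.cos (Real.pi * a)|)) :=
          mul_le_mul_of_nonneg_left (mUp_norm ha ha1 ht x) (E_pos x b).le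
      _ = E x (b + a) * (1 / (t * |Real.cos (Real.pi * a)|)) := by
          rw [← E_mul_exp]; ring

lemma E_mDown_integrable {a t b : ℝ} (ha : 1 / 2 < a) (ha1 : a < 1) (ht : 0 < t) (hb : 0 < b + a) :
    Integrable (fun x => (E x b : ℂ) * mDown a t x) := by
  refine Integrable.mono' (((E_integral hb).1).mul_const (1 / t)) ?_ ?_
  · exact ((Complex.continuous_ofReal.comp (E_continuous b)).mul
      (mDown_continuous ha ha1 ht)).aestronglyMeasurable
  · apply Eventually.of_forall
    intro x
    rw [norm_mul, Complex.norm_real, Real.norm_of_nonneg (E_pos x b).le]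
    calc E x b * ‖mDown a t x‖ ≤ E x b * (Real.exp (a * x) / t) :=
          mul_le_mul_of_nonneg_left (mDown_norm ha ha1 ht x) (E_pos x b).le
      _ = E x (b + a) * (1 / t) := by
          rw [← E_mul_exp]; ring

/-- **Exact representation.** -/
theorem F_eq_integral {a t : ℝ} (ha : 2 / 3 ≤ a) (ha1 : a < 1) (ht : 0 < t) (ht2 : t ≤ 11 / 2) :
    2 * Real.pi * I * F a t = (1 / a) * (2 * Real.pi * I * exp (exp (xi0 a t))) +
      ∫ x : ℝ, ((E x 0 : ℂ) * mUp a t x - (E x 0 : ℂ) * mDown a t x) := by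
  have pi_pos := Real.pi_pos
  have ha2 : 1 / 2 < a := by linarith
  have ha0 : 0 < a := by linarith
  obtain ⟨D, hDd, hDe⟩ := exists_removed ha2 ha1 ht
  set s0 := exp (xi0 a t) with hs0
  have hs0n : ‖s0‖ = Real.exp (Real.log t / a) := by
    rw [hs0, Complex.norm_exp, xi0_re]
  have hb := xi0_im_bounds t ha2 ha1
  -- choose a large c
  set c : ℝ := Real.log t / a + 1 with hc
  have hc1 : ‖s0‖ < Real.exp c := by
    rw [hs0n, hc]; apply Real.exp_lt_exp.mpr; linarith
  have hc2 : t < Real.exp (a * c) := by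
    rw [hc, mul_add, mul_div_cancel₀ _ ha0.ne', mul_one, Real.exp_add, Real.exp_log ht]
    have : 1 < Real.exp a := Real.one_lt_exp_iff.mpr ha0
    nlinarith
  have hPhi := U_Phi ha ht ht2 hc2
  have hg := U_g hc1
  -- D on contours
  have hDup : ∀ x : ℝ, D (x + Real.pi * I) =
      Phi a t (x + Real.pi * I) - (1 / a) * g s0 (x + Real.pi * I) := by
    intro x
    have him : ((x:ℂ) + Real.pi * I).im = Real.pi := by simp
    apply hDe
    · rw [him]; linarith
    · rw [him]
    · intro h0
      rw [h0] at him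
      linarith [hb.2]
  have hDdown : ∀ x : ℝ, D (x - Real.pi * I) =
      Phi a t (x - Real.pi * I) - (1 / a) * g s0 (x - Real.pi * I) := by
    intro x
    have him : ((x:ℂ) - Real.pi * I).im = -Real.pi := by simp
    apply hDe
    · rw [him]
    · rw [him]; linarith
    · intro h0
      rw [h0] at him
      linarith [hb.1]
  have hDvert : ∀ c' : ℝ, c' ≠ Real.log t / a → ∀ y ∈ Icc (-Real.pi) Real.pi, D (c' + y * I) =
      Phi a t (c' + y * I) - (1 / a) * g s0 (c' + y * I) := by
    intro c' hc' y hy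
    have him : ((c':ℂ) + y * I).im = y := by simp
    have hre : ((c':ℂ) + y * I).re = c' := by simp
    apply hDe
    · rw [him]; exact hy.1
    · rw [him]; exact hy.2
    · intro h0
      rw [h0, xi0_re] at hre
      exact hc' hre.symm
  -- difference on the horizontal lines
  have hDhor : ∀ x : ℝ, D (x + Real.pi * I) - D (x - Real.pi * I) =
      (E x 0 : ℂ) * mUp a t x - (E x 0 : ℂ) * mDown a t x := by
    intro x
    rw [hDup, hDdown, Phi_up, Phi_down]
    have : g s0 (x + Real.pi * I) = g s0 (x - Real.pi * I) := by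
      unfold g; rw [exp_add_pi, exp_sub_pi]
    rw [this]; ring
  have hint : Integrable (fun x : ℝ => D (x + Real.pi * I) - D (x - Real.pi * I)) := by
    simp only [hDhor]
    exact (E_mUp_integrable ha2 ha1 ht (by linarith)).sub
      (E_mDown_integrable ha2 ha1 ht (by linarith))
  -- U c D
  have hUD : U c D = U c (Phi a t) - (1 / a) * U c (g s0) := by
    have hPg : Good c (Phi a t) := by
      unfold Phi
      exact Good_of_bdd (m_continuousOn ha0 ht hc2) (fun ξ hξ => m_norm_le ha0 ht hc2 hξ)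
    rw [← U_const_mul, ← U_sub hPg ((g_good hc1).const_mul _)]
    unfold U
    congr 1
    · apply setIntegral_congr_fun measurableSet_Ioi
      intro x _
      simp only
      rw [hDup, hDdown]
    · congr 1
      apply intervalIntegral.integral_congr
      intro y hy
      rw [uIcc_of_le (by linarith)] at hy
      simp only
      rw [hDvert c (by rw [hc]; linarith) y hy]
  -- shift
  have hshift : ∀ c' : ℝ, c' ≤ c → U c' D = U c D := by
    intro c' hc'
    apply U_shift hc' countable_empty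
    · intro ξ hξ
      exact (hDd ξ hξ.2.1 hξ.2.2).continuousAt.continuousWithinAt
    · intro ξ _ h2 h3 _
      exact hDd ξ h2.le h3.le
    · exact hint.integrableOn
  -- limit
  have hlim1 : Tendsto (fun c' : ℝ => ∫ x in Ioi c', (D (x + Real.pi * I) - D (x - Real.pi * I)))
      atBot (𝓝 (∫ x : ℝ, (D (x + Real.pi * I) - D (x - Real.pi * I)))) :=
    AECover.integral_tendsto_of_countably_generated
        (aecover_Ioi (μ := volume) (a := fun c' : ℝ => c') tendsto_id) hint
  have hlim2 : Tendsto (fun c' : ℝ => I * ∫ y in (-Real.pi)..Real.pi, D (c' + y * I)) atBot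
      (𝓝 0) := by
    rw [tendsto_zero_iff_norm_tendsto_zero]
    set bd : ℝ → ℝ := fun c' => Real.exp (Real.exp c') * (Real.exp (a * c') / (t - Real.exp (a * c')) +
      (1 / a) * (Real.exp c' / (‖s0‖ - Real.exp c'))) with hbd
    have hexpa : Tendsto (fun c' : ℝ => Real.exp (a * c')) atBot (𝓝 0) :=
      Real.tendsto_exp_atBot.comp (Tendsto.const_mul_atBot ha0 tendsto_id)
    have hs0pos : 0 < ‖s0‖ := by rw [hs0n]; exact Real.exp_pos _
    have hbound : ∀ᶠ c' : ℝ in atBot, ‖I * ∫ y in (-Real.pi)..Real.pi, D (c' + y * I)‖ ≤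
        bd c' * |Real.pi - (-Real.pi)| := by
      have ev1 : ∀ᶠ c' : ℝ in atBot, Real.exp (a * c') < t := hexpa.eventually_lt_const ht
      have ev2 : ∀ᶠ c' : ℝ in atBot, Real.exp c' < ‖s0‖ :=
        Real.tendsto_exp_atBot.eventually_lt_const hs0pos
      filter_upwards [ev1, ev2, eventually_lt_atBot (Real.log t / a)] with c' h1 h2 h3
      rw [norm_mul, Complex.norm_I, one_mul]
      apply intervalIntegral.norm_integral_le_of_norm_le_const
      intro y hy
      rw [uIoc_of_le (by linarith)] at hy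
      rw [hDvert c' h3.ne y ⟨hy.1.le, hy.2⟩]
      have hre : ((c':ℂ) + y * I).re = c' := by simp
      have hE := norm_expexp_le ((c':ℂ) + y * I)
      rw [hre] at hE
      have hm1 : ‖m a t (c' + y * I)‖ ≤ Real.exp (a * c') / (t - Real.exp (a * c')) := by
        unfold m
        rw [norm_div, norm_exp_a, hre]
        apply div_le_div_of_nonneg_left (Real.exp_pos _).le (by linarith)
        have := norm_sub_norm_le ((t:ℂ) * I) (exp (a * (c' + y * I)))
        rw [norm_tI t ht, norm_exp_a, hre] at this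
        rwa [norm_sub_rev] at this
      have hg1 : ‖exp ((c':ℂ) + y * I) / (exp (c' + y * I) - s0)‖ ≤
          Real.exp c' / (‖s0‖ - Real.exp c') := by
        rw [norm_div, norm_exp_vert]
        apply div_le_div_of_nonneg_left (Real.exp_pos _).le (by linarith)
        have := norm_sub_norm_le s0 (exp ((c':ℂ) + y * I))
        rw [norm_exp_vert] at this
        rwa [norm_sub_rev] at this
      have hapos : 0 < 1 / a := by positivity
      calc ‖Phi a t (c' + y * I) - (1 / a) * g s0 (c' + y * I)‖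
          ≤ ‖Phi a t (c' + y * I)‖ + ‖(1 / a) * g s0 (c' + y * I)‖ := norm_sub_le _ _
        _ ≤ Real.exp (Real.exp c') * (Real.exp (a * c') / (t - Real.exp (a * c'))) +
            (1 / a) * (Real.exp (Real.exp c') * (Real.exp c' / (‖s0‖ - Real.exp c'))) := by
            apply add_le_add
            · unfold Phi
              rw [norm_mul]
              exact mul_le_mul hE hm1 (norm_nonneg _) (Real.exp_pos _).le
            · have e1 : ‖(1 / (a:ℂ))‖ = 1 / a := by
                rw [norm_div, norm_one, Complex.norm_real, Real.norm_of_nonneg ha0.le]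
              unfold g
              rw [norm_mul, norm_mul, e1]
              apply mul_le_mul_of_nonneg_left _ hapos.le
              exact mul_le_mul hE hg1 (norm_nonneg _) (Real.exp_pos _).le
        _ = bd c' := by rw [hbd]; ring
    refine squeeze_zero' (Eventually.of_forall fun c' => norm_nonneg _) hbound ?_
    have t1 : Tendsto (fun c' : ℝ => Real.exp (Real.exp c')) atBot (𝓝 1) := by
      have := (Real.continuous_exp.tendsto 0).comp Real.tendsto_exp_atBot
      simpa [Function.comp_def] using this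
    have t2 : Tendsto (fun c' : ℝ => Real.exp (a * c') / (t - Real.exp (a * c'))) atBot (𝓝 0) := by
      have := hexpa.div (tendsto_const_nhds.sub hexpa) (by simpa using ht.ne' : t - 0 ≠ 0)
      rw [zero_div] at this
      exact this
    have t3 : Tendsto (fun c' : ℝ => Real.exp c' / (‖s0‖ - Real.exp c')) atBot (𝓝 0) := by
      have := Real.tendsto_exp_atBot.div
        (tendsto_const_nhds.sub Real.tendsto_exp_atBot) (by simpa using hs0pos.ne' : ‖s0‖ - 0 ≠ 0)
      rw [zero_div] at this
      exact this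
    have t4 := (t1.mul (t2.add (t3.const_mul (1 / a)))).mul_const (|Real.pi - (-Real.pi)|)
    have e0 : 1 * (0 + 1 / a * 0) * |Real.pi - (-Real.pi)| = 0 := by ring
    rw [e0] at t4
    exact t4
  have hlim3 : Tendsto (fun c' : ℝ => U c' D) atBot
      (𝓝 ((∫ x : ℝ, (D (x + Real.pi * I) - D (x - Real.pi * I))) + 0)) := hlim1.add hlim2
  have hlim4 : Tendsto (fun c' : ℝ => U c' D) atBot (𝓝 (U c D)) := by
    apply tendsto_const_nhds.congr'
    filter_upwards [eventually_le_atBot c] with c' hc'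
    exact (hshift c' hc').symm
  have hfin := tendsto_nhds_unique hlim4 hlim3
  rw [add_zero, hUD, hPhi, hg] at hfin
  simp only [hDhor] at hfin
  linear_combination hfin

end Pool.Agent.Work.MP_ff8adc_an
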