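import Pool.Agent.Work.MP_ff8adc_an.RepC

set_option autoImplicit false

open Set Complex MeasureTheory Filter Topology

namespace Pool.Agent.Work.MP_ff8adc_an

lemma m_expand {w z : ℂ} (hz : z ≠ 0) (h : w - z ≠ 0) :
    w / (w - z) = -(w / z) - (w / z) ^ 2 + (w / z) ^ 2 * (w / (w - z)) := by
  field_simp
  ring

/-- **Asymptotic formula with explicit remainder.** -/
theorem F_asymp {a t : ℝ} (ha : 2 / 3 ≤ a) (ha1 : a < 1) (ht : 0 < t) (ht2 : t ≤ 11 / 2) :
    ∃ R : ℂ, ‖R‖ ≤ Real.Gamma (3 * a) / (2 * Real.pi * t ^ 3) *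
        (1 + 1 / |Real.cos (Real.pi * a)|) ∧
      F a t = (1 / a) * exp (exp (xi0 a t)) +
        ((Real.sin (Real.pi * a) * Real.Gamma a / (Real.pi * t) : ℝ) : ℂ) * I +
        ((Real.sin (2 * Real.pi * a) * Real.Gamma (2 * a) / (Real.pi * t ^ 2) : ℝ) : ℂ) + R := by
  have pi_pos := Real.pi_pos
  have ha2 : 1 / 2 < a := by linarith
  have ha0 : 0 < a := by linarith
  have hcos := cos_ne ha2 ha1
  have htc : (t:ℂ) ≠ 0 := by exact_mod_cast ht.ne'
  have hz : (t:ℂ) * I ≠ 0 := mul_ne_zero htc I_ne_zero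
  have hpc : (Real.pi : ℂ) ≠ 0 := by exact_mod_cast pi_pos.ne'
  set eu : ℂ := exp (Real.pi * a * I) with heu
  set ed : ℂ := exp (-(Real.pi * a * I)) with hed
  have hnu : ‖eu‖ = 1 := by
    have : (Real.pi : ℂ) * a * I = ((Real.pi * a : ℝ) : ℂ) * I := by push_cast; ring
    rw [heu, this, Complex.norm_exp_ofReal_mul_I]
  have hnd : ‖ed‖ = 1 := by
    have : -((Real.pi : ℂ) * a * I) = ((-(Real.pi * a) : ℝ) : ℂ) * I := by push_cast; ring
    rw [hed, this, Complex.norm_exp_ofReal_mul_I]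
  -- expansions of the two lines
  have hup : ∀ x : ℝ, (E x 0 : ℂ) * mUp a t x =
      -(E x a : ℂ) * (eu / (t * I)) - (E x (2 * a) : ℂ) * (eu / (t * I)) ^ 2 +
        (eu / (t * I)) ^ 2 * ((E x (2 * a) : ℂ) * mUp a t x) := by
    intro x
    have h1 : mUp a t x = exp ((a:ℂ) * (x + Real.pi * I)) /
      (exp ((a:ℂ) * (x + Real.pi * I)) - t * I) := rfl
    have h2 := m_expand hz (den_up_ne ha2 ha1 ht x)
    rw [← h1, exp_a_up] at h2
    have h3 : (E x a : ℂ) = (E x 0 : ℂ) * (Real.exp (a * x) : ℂ) := by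
      rw [← Complex.ofReal_mul, E_mul_exp, zero_add]
    have h4 : (E x (2 * a) : ℂ) = (E x 0 : ℂ) * (Real.exp (a * x) : ℂ) ^ 2 := by
      have : Real.exp (a * x) ^ 2 = Real.exp ((2 * a) * x) := by
        rw [← Real.exp_nat_mul]; congr 1; push_cast; ring
      rw [← Complex.ofReal_pow, ← Complex.ofReal_mul, this, E_mul_exp, zero_add]
    rw [h3, h4]
    linear_combination (E x 0 : ℂ) * h2
  have hdown : ∀ x : ℝ, (E x 0 : ℂ) * mDown a t x =
      -(E x a : ℂ) * (ed / (t * I)) - (E x (2 * a) : ℂ) * (ed / (t * I)) ^ 2 +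
        (ed / (t * I)) ^ 2 * ((E x (2 * a) : ℂ) * mDown a t x) := by
    intro x
    have h1 : mDown a t x = exp ((a:ℂ) * (x - Real.pi * I)) /
      (exp ((a:ℂ) * (x - Real.pi * I)) - t * I) := rfl
    have h2 := m_expand hz (den_down_ne ha2 ha1 ht x)
    rw [← h1, exp_a_down] at h2
    have h3 : (E x a : ℂ) = (E x 0 : ℂ) * (Real.exp (a * x) : ℂ) := by
      rw [← Complex.ofReal_mul, E_mul_exp, zero_add]
    have h4 : (E x (2 * a) : ℂ) = (E x 0 : ℂ) * (Real.exp (a * x) : ℂ) ^ 2 := by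
      have : Real.exp (a * x) ^ 2 = Real.exp ((2 * a) * x) := by
        rw [← Real.exp_nat_mul]; congr 1; push_cast; ring
      rw [← Complex.ofReal_pow, ← Complex.ofReal_mul, this, E_mul_exp, zero_add]
    rw [h3, h4]
    linear_combination (E x 0 : ℂ) * h2
  set J : ℂ := ∫ x : ℝ, ((eu / (t * I)) ^ 2 * ((E x (2 * a) : ℂ) * mUp a t x) -
    (ed / (t * I)) ^ 2 * ((E x (2 * a) : ℂ) * mDown a t x)) with hJ
  have hIa : Integrable (fun x : ℝ => (E x a : ℂ)) := ((E_integral ha0).1).ofReal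
  have hI2a : Integrable (fun x : ℝ => (E x (2 * a) : ℂ)) :=
    ((E_integral (by linarith : 0 < 2 * a)).1).ofReal
  have hIu := (E_mUp_integrable ha2 ha1 ht (by linarith : 0 < 2 * a + a)).const_mul
    ((eu / (t * I)) ^ 2)
  have hId := (E_mDown_integrable ha2 ha1 ht (by linarith : 0 < 2 * a + a)).const_mul
    ((ed / (t * I)) ^ 2)
  have hmain : ∫ x : ℝ, ((E x 0 : ℂ) * mUp a t x - (E x 0 : ℂ) * mDown a t x) =
      -((Real.Gamma a : ℂ)) * ((eu - ed) / (t * I)) -
      (Real.Gamma (2 * a) : ℂ) * ((eu ^ 2 - ed ^ 2) / (t * I) ^ 2) + J := by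
    have e1 : ∀ x : ℝ, ((E x 0 : ℂ) * mUp a t x - (E x 0 : ℂ) * mDown a t x) =
        ((E x a : ℂ) * (-((eu - ed) / (t * I))) +
          (E x (2 * a) : ℂ) * (-((eu ^ 2 - ed ^ 2) / (t * I) ^ 2))) +
        ((eu / (t * I)) ^ 2 * ((E x (2 * a) : ℂ) * mUp a t x) -
          (ed / (t * I)) ^ 2 * ((E x (2 * a) : ℂ) * mDown a t x)) := by
      intro x
      rw [hup, hdown]
      field_simp
      ring
    simp only [e1]
    have i1 : Integrable (fun x : ℝ => (E x a : ℂ) * (-((eu - ed) / (t * I))) +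
          (E x (2 * a) : ℂ) * (-((eu ^ 2 - ed ^ 2) / (t * I) ^ 2))) :=
      (hIa.mul_const _).add (hI2a.mul_const _)
    have i2 : Integrable (fun x : ℝ => (eu / (t * I)) ^ 2 * ((E x (2 * a) : ℂ) * mUp a t x) -
          (ed / (t * I)) ^ 2 * ((E x (2 * a) : ℂ) * mDown a t x)) := hIu.sub hId
    rw [integral_add i1 i2,
      integral_add (hIa.mul_const _) (hI2a.mul_const _), integral_mul_const, integral_mul_const,
      integral_complex_ofReal, integral_complex_ofReal, (E_integral ha0).2,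
      (E_integral (by linarith : 0 < 2 * a)).2, ← hJ]
    ring
  -- evaluate the differences of exponentials
  have hd1 : eu - ed = 2 * I * (Real.sin (Real.pi * a) : ℂ) := by
    rw [heu, hed, exp_pi_a, exp_neg_pi_a]
    generalize Real.sin (Real.pi * a) = s
    apply Complex.ext <;> simp
    ring
  have hd2 : eu ^ 2 - ed ^ 2 = 2 * I * (Real.sin (2 * Real.pi * a) : ℂ) := by
    have h1 : eu ^ 2 = exp (Real.pi * (2 * a : ℝ) * I) := by
      rw [heu, ← Complex.exp_nat_mul]; congr 1; push_cast; ring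
    have h2 : ed ^ 2 = exp (-(Real.pi * (2 * a : ℝ) * I)) := by
      rw [hed, ← Complex.exp_nat_mul]; congr 1; push_cast; ring
    rw [h1, h2, exp_pi_a, exp_neg_pi_a, show 2 * Real.pi * a = Real.pi * (2 * a) by ring]
    generalize Real.sin (Real.pi * (2 * a)) = s
    apply Complex.ext <;> simp
    ring
  have hrep := F_eq_integral ha ha1 ht ht2
  rw [hmain, hd1, hd2] at hrep
  refine ⟨J / (2 * Real.pi * I), ?_, ?_⟩
  · -- norm bound
    have hJn : ‖J‖ ≤ Real.Gamma (3 * a) / t ^ 3 * (1 + 1 / |Real.cos (Real.pi * a)|) := by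
      have h3a : 0 < 3 * a := by linarith
      have hb : ‖J‖ ≤ ∫ x : ℝ, (1 / t ^ 3 * (1 + 1 / |Real.cos (Real.pi * a)|)) * E x (3 * a) := by
        rw [hJ]
        apply norm_integral_le_of_norm_le ((E_integral h3a).1.const_mul _)
        apply Eventually.of_forall
        intro x
        have n1 : ‖(eu / (t * I)) ^ 2‖ = 1 / t ^ 2 := by
          rw [norm_pow, norm_div, hnu, norm_tI t ht, div_pow, one_pow]
        have n2 : ‖(ed / (t * I)) ^ 2‖ = 1 / t ^ 2 := by
          rw [norm_pow, norm_div, hnd, norm_tI t ht, div_pow, one_pow]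
        have n3 : ‖(E x (2 * a) : ℂ)‖ = E x (2 * a) := by
          rw [Complex.norm_real, Real.norm_of_nonneg (E_pos _ _).le]
        have hE3 : E x (2 * a) * Real.exp (a * x) = E x (3 * a) := by
          rw [E_mul_exp]; congr 1; ring
        calc ‖(eu / (t * I)) ^ 2 * ((E x (2 * a) : ℂ) * mUp a t x) -
              (ed / (t * I)) ^ 2 * ((E x (2 * a) : ℂ) * mDown a t x)‖
            ≤ ‖(eu / (t * I)) ^ 2 * ((E x (2 * a) : ℂ) * mUp a t x)‖ +
              ‖(ed / (t * I)) ^ 2 * ((E x (2 * a) : ℂ) * mDown a t x)‖ := norm_sub_le _ _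
          _ = 1 / t ^ 2 * (E x (2 * a) * ‖mUp a t x‖) +
              1 / t ^ 2 * (E x (2 * a) * ‖mDown a t x‖) := by
              rw [norm_mul, norm_mul, norm_mul, norm_mul, n1, n2, n3]
          _ ≤ 1 / t ^ 2 * (E x (2 * a) * (Real.exp (a * x) / (t * |Real.cos (Real.pi * a)|))) +
              1 / t ^ 2 * (E x (2 * a) * (Real.exp (a * x) / t)) := by
              have p1 : 0 ≤ 1 / t ^ 2 := by positivity
              have p2 := (E_pos x (2 * a)).le
              apply add_le_add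
              · exact mul_le_mul_of_nonneg_left
                  (mul_le_mul_of_nonneg_left (mUp_norm ha2 ha1 ht x) p2) p1
              · exact mul_le_mul_of_nonneg_left
                  (mul_le_mul_of_nonneg_left (mDown_norm ha2 ha1 ht x) p2) p1
          _ = (1 / t ^ 3 * (1 + 1 / |Real.cos (Real.pi * a)|)) * E x (3 * a) := by
              rw [← hE3]
              field_simp
              ring
      rw [integral_const_mul, (E_integral h3a).2] at hb
      calc ‖J‖ ≤ _ := hb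
        _ = _ := by ring
    rw [norm_div]
    have n4 : ‖(2 * (Real.pi:ℂ) * I)‖ = 2 * Real.pi := by
      simp [abs_of_pos pi_pos]
    rw [n4, div_le_iff₀ (by positivity)]
    calc ‖J‖ ≤ _ := hJn
      _ = _ := by field_simp
  · have h2pi : 2 * (Real.pi:ℂ) * I ≠ 0 := by
      simp [pi_pos.ne']
    apply mul_left_cancel₀ h2pi
    rw [hrep]
    have hI2 : I ^ 2 = -1 := I_sq
    rw [Complex.ofReal_div, Complex.ofReal_div, Complex.ofReal_mul, Complex.ofReal_mul,
      Complex.ofReal_mul, Complex.ofReal_mul, Complex.ofReal_pow]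
    generalize ((Real.sin (Real.pi * a) : ℝ) : ℂ) = s1
    generalize ((Real.sin (2 * Real.pi * a) : ℝ) : ℂ) = s2
    generalize ((Real.Gamma a : ℝ) : ℂ) = g1
    generalize ((Real.Gamma (2 * a) : ℝ) : ℂ) = g2
    generalize cexp (cexp (xi0 a t)) = ee
    have e1 : 2 * I * s1 / (t * I) = 2 * s1 / t := by field_simp
    have e2 : 2 * I * s2 / (t * I) ^ 2 = -(2 * I * s2 / t ^ 2) := by
      rw [mul_pow, hI2]; field_simp
    have e3 : 2 * Real.pi * I * (s1 * g1 / (Real.pi * t) * I) = -(g1 * (2 * s1 / t)) := by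
      have : 2 * Real.pi * I * (s1 * g1 / (Real.pi * t) * I) =
        I ^ 2 * (g1 * (2 * s1 / t)) := by field_simp
      rw [this, hI2]; ring
    have e4 : 2 * Real.pi * I * (s2 * g2 / (Real.pi * t ^ 2)) = g2 * (2 * I * s2 / t ^ 2) := by
      field_simp
    have e5 : 2 * Real.pi * I * (J / (2 * Real.pi * I)) = J := by
      field_simp
    rw [e1, e2]
    have e6 : 2 * Real.pi * I * (1 / (a:ℂ) * ee + s1 * g1 / (Real.pi * t) * I +
        s2 * g2 / (Real.pi * t ^ 2) + J / (2 * Real.pi * I)) =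
        1 / a * (2 * Real.pi * I * ee) + 2 * Real.pi * I * (s1 * g1 / (Real.pi * t) * I) +
        2 * Real.pi * I * (s2 * g2 / (Real.pi * t ^ 2)) +
        2 * Real.pi * I * (J / (2 * Real.pi * I)) := by ring
    rw [e6, e3, e4, e5]
    ring

end Pool.Agent.Work.MP_ff8adc_an
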