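import Mathlib

set_option autoImplicit false

open Set Complex

namespace Pool.Agent.Work.MP_ff8adc_an

/-- A continuous real function on an interval whose sine is positive stays in the same
interval `(2πn, 2πn + π)`; we only need the two special instances below. -/
lemma phase_stay (p : ℝ → ℝ) (a b : ℝ) (_hab : a ≤ b) (hp : ContinuousOn p (Icc a b))
    (c d : ℝ) (hout : ∀ x ∈ Icc a b, p x ≠ c ∧ p x ≠ d)
    (hb : p b ∈ Ioo c d) : ∀ x ∈ Icc a b, p x ∈ Ioo c d := by
  intro x hx
  have hsub : Icc x b ⊆ Icc a b := Icc_subset_Icc hx.1 le_rfl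
  have hpc : ContinuousOn p (Icc x b) := hp.mono hsub
  refine ⟨?_, ?_⟩
  · by_contra hcon
    push Not at hcon
    have : c ∈ p '' Icc x b := by
      apply intermediate_value_Icc hx.2 hpc
      exact ⟨hcon, hb.1.le⟩
    obtain ⟨y, hy, hyc⟩ := this
    exact (hout y (hsub hy)).1 hyc
  · by_contra hcon
    push Not at hcon
    have : d ∈ p '' Icc x b := by
      apply intermediate_value_Icc' hx.2 hpc
      exact ⟨hb.2.le, hcon⟩
    obtain ⟨y, hy, hyc⟩ := this
    exact (hout y (hsub hy)).2 hyc

lemma phase_stay' (p : ℝ → ℝ) (a b : ℝ) (_hab : a ≤ b) (hp : ContinuousOn p (Icc a b))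
    (c d : ℝ) (hout : ∀ x ∈ Icc a b, p x ≠ c ∧ p x ≠ d)
    (ha : p a ∈ Ioo c d) : ∀ x ∈ Icc a b, p x ∈ Ioo c d := by
  intro x hx
  have hsub : Icc a x ⊆ Icc a b := Icc_subset_Icc le_rfl hx.2
  have hpc : ContinuousOn p (Icc a x) := hp.mono hsub
  refine ⟨?_, ?_⟩
  · by_contra hcon
    push Not at hcon
    have : c ∈ p '' Icc a x := by
      apply intermediate_value_Icc' hx.1 hpc
      exact ⟨hcon, ha.1.le⟩
    obtain ⟨y, hy, hyc⟩ := this
    exact (hout y (hsub hy)).1 hyc
  · by_contra hcon
    push Not at hcon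
    have : d ∈ p '' Icc a x := by
      apply intermediate_value_Icc hx.1 hpc
      exact ⟨ha.2.le, hcon⟩
    obtain ⟨y, hy, hyc⟩ := this
    exact (hout y (hsub hy)).2 hyc

/-- The topological heart: a phase count around the rectangle. -/
theorem exists_zero (F : ℝ → ℝ → ℂ) (a₀ am T : ℝ) (h01 : a₀ ≤ am) (h12 : am ≤ 1) (hT0 : 0 < T)
    (hc : ContinuousOn (fun q : ℝ × ℝ => F q.1 q.2) (Icc a₀ 1 ×ˢ Icc 0 T))
    (h0 : ∀ a ∈ Icc a₀ 1, F a 0 = 1)
    (h1 : ∀ t ∈ Icc 0 T, F 1 t = exp (t * I))
    (hE1 : ∀ t ∈ Ioc 0 T, 0 < (F a₀ t).im)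
    (hE2 : ∀ a ∈ Icc a₀ am, 0 < (F a T).im)
    (hE3 : ∀ a ∈ Icc am 1, 0 < (F a T).re)
    (hT1 : 3 * Real.pi / 2 < T) (hT2 : T < 5 * Real.pi / 2) :
    ∃ a ∈ Icc a₀ 1, ∃ t ∈ Icc 0 T, F a t = 0 := by
  by_contra hne
  push Not at hne
  have ha1 : a₀ ≤ 1 := h01.trans h12
  -- clamped function on the whole plane
  set cl : ℝ × ℝ → ℝ × ℝ := fun q => ((projIcc a₀ 1 ha1 q.1 : ℝ), (projIcc 0 T hT0.le q.2 : ℝ))
    with hcl
  have hclc : Continuous cl := by
    refine Continuous.prodMk ?_ ?_
    · exact continuous_subtype_val.comp (continuous_projIcc.comp continuous_fst)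
    · exact continuous_subtype_val.comp (continuous_projIcc.comp continuous_snd)
  have hclm : ∀ q, cl q ∈ Icc a₀ 1 ×ˢ Icc (0:ℝ) T := fun q =>
    ⟨(projIcc a₀ 1 ha1 q.1).2, (projIcc 0 T hT0.le q.2).2⟩
  set g : ℝ × ℝ → ℂ := fun q => F (cl q).1 (cl q).2 with hg
  have hgc : Continuous g := hc.comp_continuous hclc hclm
  have hg0 : (0:ℂ) ∉ g '' univ := by
    rintro ⟨q, -, hq⟩
    exact hne _ (hclm q).1 _ (hclm q).2 hq
  have hsc : IsSimplyConnected (univ : Set (ℝ × ℝ)) := by
    have hcv : Convex ℝ (univ : Set (ℝ × ℝ)) := convex_univ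
    have : ContractibleSpace (univ : Set (ℝ × ℝ)) := hcv.contractibleSpace univ_nonempty
    exact (inferInstance : SimplyConnectedSpace (univ : Set (ℝ × ℝ)))
  obtain ⟨f, hfc, hf⟩ := exists_continuousOn_eqOn_exp_comp hsc isOpen_univ hgc.continuousOn hg0
  rw [continuousOn_univ] at hfc
  have hf' : ∀ a ∈ Icc a₀ 1, ∀ t ∈ Icc 0 T, exp (f (a, t)) = F a t := by
    intro a ha t ht
    have := hf (mem_univ (a, t))
    simp only [Function.comp] at this
    rw [this, hg]
    simp only [hcl, projIcc_of_mem ha1 ha, projIcc_of_mem hT0.le ht]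
  -- the normalised phase
  set p : ℝ → ℝ → ℝ := fun a t => (f (a, t)).im - (f (1, 0)).im with hp
  have hpc : Continuous (fun q : ℝ × ℝ => p q.1 q.2) := by
    have : Continuous (fun q : ℝ × ℝ => (f q).im) := Complex.continuous_im.comp hfc
    exact this.sub continuous_const
  -- exp (i (f(1,0)).im) = 1
  have h11 : (1:ℝ) ∈ Icc a₀ 1 := ⟨ha1, le_rfl⟩
  have h00 : (0:ℝ) ∈ Icc 0 T := ⟨le_rfl, hT0.le⟩
  have hTT : T ∈ Icc 0 T := ⟨hT0.le, le_rfl⟩
  obtain ⟨n, hn⟩ : ∃ n : ℤ, f (1, 0) = n * (2 * Real.pi * I) := by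
    have : exp (f (1,0)) = 1 := by rw [hf' 1 h11 0 h00, h0 1 h11]
    exact Complex.exp_eq_one_iff.mp this
  have hn' : (f (1,0)).im = n * (2 * Real.pi) := by
    rw [hn]; simp
  have hcos : ∀ a t, Real.cos (p a t) = Real.cos (f (a,t)).im := by
    intro a t
    simp only [hp, hn']
    rw [Real.cos_sub_int_mul_two_pi]
  have hsin : ∀ a t, Real.sin (p a t) = Real.sin (f (a,t)).im := by
    intro a t
    simp only [hp, hn']
    rw [Real.sin_sub_int_mul_two_pi]
  have hre : ∀ a ∈ Icc a₀ 1, ∀ t ∈ Icc 0 T,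
      (F a t).re = Real.exp (f (a,t)).re * Real.cos (p a t) := by
    intro a ha t ht
    rw [← hf' a ha t ht, Complex.exp_re, hcos]
  have him : ∀ a ∈ Icc a₀ 1, ∀ t ∈ Icc 0 T,
      (F a t).im = Real.exp (f (a,t)).re * Real.sin (p a t) := by
    intro a ha t ht
    rw [← hf' a ha t ht, Complex.exp_im, hsin]
  -- p(a,0) = 0
  have hp10 : p 1 0 = 0 := by simp [hp]
  have pi_pos := Real.pi_pos
  -- p (a,0) is constant
  have hpa0 : ∀ a ∈ Icc a₀ 1, p a 0 = 0 := by
    have hcont : ContinuousOn (fun a => p a 0) (Icc a₀ 1) :=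
      (hpc.comp (Continuous.prodMk continuous_id continuous_const)).continuousOn
    have hcos1 : ∀ a ∈ Icc a₀ 1, Real.exp (f (a,0)).re * Real.cos (p a 0) = 1 := by
      intro a ha
      rw [← hre a ha 0 h00, h0 a ha]; simp
    have hsin1 : ∀ a ∈ Icc a₀ 1, Real.sin (p a 0) = 0 := by
      intro a ha
      have := him a ha 0 h00
      rw [h0 a ha] at this
      simp only [one_im] at this
      have h2 := Real.exp_pos (f (a,0)).re
      rcases mul_eq_zero.mp this.symm with h | h
      · exact absurd h h2.ne'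
      · exact h
    have hstay := phase_stay (fun a => p a 0) a₀ 1 ha1 hcont (-(Real.pi/2)) (Real.pi/2)
      (by
        intro a ha
        have h3 := hcos1 a ha
        constructor
        · intro h4
          rw [h4] at h3
          rw [Real.cos_neg, Real.cos_pi_div_two] at h3
          simp at h3
        · intro h4
          rw [h4] at h3
          rw [Real.cos_pi_div_two] at h3
          simp at h3)
      (by simp only [hp10]; constructor <;> linarith)
    intro a ha
    have h5 := hstay a ha
    have h6 := hsin1 a ha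
    have h7 : p a 0 = 0 := by
      apply (Real.sin_eq_zero_iff_of_lt_of_lt _ _).mp h6
      · linarith [h5.1]
      · linarith [h5.2]
    exact h7
  -- p(1,t) = t
  have hp1t : ∀ t ∈ Icc 0 T, p 1 t = t := by
    have hq : Continuous (fun t : ℝ => p 1 t - t) :=
      (hpc.comp (Continuous.prodMk continuous_const continuous_id)).sub continuous_id
    have hval : ∀ t ∈ Icc 0 T, ∃ m : ℤ, p 1 t - t = m * (2 * Real.pi) := by
      intro t ht
      have h2 : exp (f (1,t)) = exp (t * I) := by rw [hf' 1 h11 t ht, h1 t ht]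
      obtain ⟨m, hm⟩ := Complex.exp_eq_exp_iff_exists_int.mp h2
      refine ⟨m - n, ?_⟩
      have h3 : (f (1,t)).im = t + m * (2 * Real.pi) := by
        rw [hm]; simp
      simp only [hp, h3, hn']
      push_cast
      ring
    intro t ht
    -- stay in (-π, π)
    have hstay := phase_stay' (fun t => p 1 t - t) 0 T hT0.le hq.continuousOn (-Real.pi) Real.pi
      (by
        intro s hs
        obtain ⟨m, hm⟩ := hval s hs
        constructor
        · intro h4
          rw [hm] at h4
          have h5 : (m:ℝ) * 2 = -1 := by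
            have : Real.pi * ((m:ℝ) * 2) = Real.pi * (-1) := by linarith
            exact mul_left_cancel₀ pi_pos.ne' this
          have h6 : m * 2 = -1 := by exact_mod_cast h5
          omega
        · intro h4
          rw [hm] at h4
          have h5 : (m:ℝ) * 2 = 1 := by
            have : Real.pi * ((m:ℝ) * 2) = Real.pi * 1 := by linarith
            exact mul_left_cancel₀ pi_pos.ne' this
          have h6 : m * 2 = 1 := by exact_mod_cast h5
          omega)
      (by simp only [hp10]; constructor <;> linarith)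
    have h5 := hstay t ht
    obtain ⟨m, hm⟩ := hval t ht
    rw [hm] at h5
    have hm0 : m = 0 := by
      have h6 : (m:ℝ) < 1 := by
        by_contra h; push Not at h
        nlinarith [h5.2]
      have h7 : (-1:ℝ) < m := by
        by_contra h; push Not at h
        nlinarith [h5.1]
      have h8 : m < 1 := by exact_mod_cast h6
      have h9 : -1 < m := by exact_mod_cast h7
      omega
    rw [hm0] at hm
    simp at hm
    linarith
  -- bottom edge a = a₀ : phase in (0,π)
  have ha0 : a₀ ∈ Icc a₀ 1 := ⟨le_rfl, ha1⟩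
  have hbot : p a₀ T < Real.pi := by
    by_contra hcon
    push Not at hcon
    have hcont : ContinuousOn (fun t => p a₀ t) (Icc 0 T) :=
      (hpc.comp (Continuous.prodMk continuous_const continuous_id)).continuousOn
    have : Real.pi ∈ (fun t => p a₀ t) '' Icc 0 T := by
      apply intermediate_value_Icc hT0.le hcont
      refine ⟨?_, hcon⟩
      simp only [hpa0 a₀ ha0]
      exact pi_pos.le
    obtain ⟨t, ht, htp'⟩ := this
    have htp : p a₀ t = Real.pi := htp'
    have ht0 : 0 < t := by
      rcases eq_or_lt_of_le ht.1 with h | h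
      · exfalso
        rw [← h, hpa0 a₀ ha0] at htp
        exact pi_pos.ne htp
      · exact h
    have h2 := hE1 t ⟨ht0, ht.2⟩
    rw [him a₀ ha0 t ht, htp, Real.sin_pi, mul_zero] at h2
    exact lt_irrefl _ h2
  -- right edge t = T
  have hcont : ContinuousOn (fun a => p a T) (Icc am 1) :=
      (hpc.comp (Continuous.prodMk continuous_id continuous_const)).continuousOn
  have hright := phase_stay (fun a => p a T) am 1 h12 hcont (3 * Real.pi / 2) (5 * Real.pi / 2)
    (by
      intro a ha
      have ha' : a ∈ Icc a₀ 1 := ⟨h01.trans ha.1, ha.2⟩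
      have h2 := hE3 a ha
      rw [hre a ha' T hTT] at h2
      constructor
      · intro h4
        rw [h4] at h2
        have : Real.cos (3 * Real.pi / 2) = 0 := by
          rw [show 3 * Real.pi / 2 = Real.pi / 2 + Real.pi by ring, Real.cos_add_pi,
            Real.cos_pi_div_two, neg_zero]
        rw [this, mul_zero] at h2
        exact lt_irrefl _ h2
      · intro h4
        rw [h4] at h2
        have : Real.cos (5 * Real.pi / 2) = 0 := by
          rw [show 5 * Real.pi / 2 = Real.pi / 2 + 2 * Real.pi by ring, Real.cos_add_two_pi,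
            Real.cos_pi_div_two]
        rw [this, mul_zero] at h2
        exact lt_irrefl _ h2)
    (by simp only [hp1t T hTT]; exact ⟨hT1, hT2⟩)
  have ham : am ∈ Icc a₀ 1 := ⟨h01, h12⟩
  have hm1 := hright am ⟨le_rfl, h12⟩
  -- sine positive at am hence in (2π, 3π)
  have hsm : 0 < Real.sin (p am T) := by
    have h2 := hE2 am ⟨h01, le_rfl⟩
    rw [him am ham T hTT] at h2
    exact (mul_pos_iff_of_pos_left (Real.exp_pos _)).mp h2
  have hm2 : p am T ∈ Ioo (2 * Real.pi) (3 * Real.pi) := by
    refine ⟨?_, by linarith [hm1.2]⟩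
    by_contra h
    push Not at h
    have h3 : Real.sin (p am T) ≤ 0 := by
      have h4 : Real.sin (p am T) = Real.sin (p am T - 2 * Real.pi) := by
        rw [Real.sin_sub_two_pi]
      rw [h4]
      apply Real.sin_nonpos_of_nonpos_of_neg_pi_le
      · linarith
      · linarith [hm1.1]
    linarith
  have hcont2 : ContinuousOn (fun a => p a T) (Icc a₀ am) :=
      (hpc.comp (Continuous.prodMk continuous_id continuous_const)).continuousOn
  have hleft := phase_stay (fun a => p a T) a₀ am h01 hcont2 (2 * Real.pi) (3 * Real.pi)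
    (by
      intro a ha
      have ha' : a ∈ Icc a₀ 1 := ⟨ha.1, ha.2.trans h12⟩
      have h2 := hE2 a ha
      rw [him a ha' T hTT] at h2
      constructor
      · intro h4
        rw [h4, Real.sin_two_pi, mul_zero] at h2
        exact lt_irrefl _ h2
      · intro h4
        rw [h4] at h2
        have : Real.sin (3 * Real.pi) = 0 := by
          rw [show 3 * Real.pi = Real.pi + 2 * Real.pi by ring, Real.sin_add_two_pi, Real.sin_pi]
        rw [this, mul_zero] at h2
        exact lt_irrefl _ h2)
    hm2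
  have hfin := (hleft a₀ ⟨le_rfl, h01⟩).1
  linarith

end Pool.Agent.Work.MP_ff8adc_an
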